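import Pool.Agent.Lib.MP_1ce42f_lc.Structure

/-!
# From exactly filled gaps to a not-all-equal colouring
-/

namespace Pool.Agent.LateJobs

theorem Fills.copyE {n : ℕ} {H : List (List ℕ)} {X : Lbl → Prop} {gp : Lbl → ℕ} {A : ℕ → Prop}
    (F : Fills n H X gp A) (s : ℕ) (hs : s < H.length) :
    ∀ q < n, (A (2 * n * s + q) ↔ ¬ A (2 * n * s + (2 * n - 1 - q))) := by
  have h1 : ∀ q < n, X (1, s, q) := fun q hq =>
    F.all _ (mem_labels.2 (Or.inr (Or.inl ⟨Or.inl rfl, hs, hq⟩))) (by norm_num)
  have h2 : ∀ q < n, X (2, s, q) := fun q hq =>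
    F.all _ (mem_labels.2 (Or.inr (Or.inl ⟨Or.inr rfl, hs, hq⟩))) (by norm_num)
  apply nested n (2 * n * s) A (fun q => gp (1, s, q)) (fun q => gp (2, s, q))
  · intro q hq
    have h3 := F.win _ (h1 q hq) (by norm_num)
    have h4 := F.typA _ (h1 q hq) (by norm_num) (by simp [plen])
    simp only [wL, wR] at h3
    norm_num at h3
    exact ⟨h3.1, h3.2, h4⟩
  · intro q hq
    have h3 := F.win _ (h2 q hq) (by norm_num)
    have h4 := F.typB _ (h2 q hq) (by norm_num) (by simp [plen])
    simp only [wL, wR] at h3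
    norm_num at h3
    exact ⟨h3.1, h3.2, h4⟩
  · intro q hq q' hq' h
    have := F.uniq _ _ (h1 q hq) (h1 q' hq') (by norm_num) (by norm_num) rfl h
    simpa using this
  · intro q hq q' hq' h
    have := F.uniq _ _ (h2 q hq) (h2 q' hq') (by norm_num) (by norm_num) rfl h
    simpa using this

theorem Fills.copyO {n : ℕ} {H : List (List ℕ)} {X : Lbl → Prop} {gp : Lbl → ℕ} {A : ℕ → Prop}
    (F : Fills n H X gp A) (s : ℕ) (hs : s < H.length - 1) :
    ∀ q < n, (A (2 * n * s + n + q) ↔ ¬ A (2 * n * s + n + (2 * n - 1 - q))) := by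
  have h1 : ∀ q < n, X (3, s, q) := fun q hq =>
    F.all _ (mem_labels.2 (Or.inr (Or.inr (Or.inl ⟨Or.inl rfl, hs, hq⟩)))) (by norm_num)
  have h2 : ∀ q < n, X (4, s, q) := fun q hq =>
    F.all _ (mem_labels.2 (Or.inr (Or.inr (Or.inl ⟨Or.inr rfl, hs, hq⟩)))) (by norm_num)
  apply nested n (2 * n * s + n) A (fun q => gp (3, s, q)) (fun q => gp (4, s, q))
  · intro q hq
    have h3 := F.win _ (h1 q hq) (by norm_num)
    have h4 := F.typA _ (h1 q hq) (by norm_num) (by simp [plen])
    simp only [wL, wR] at h3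
    norm_num at h3
    exact ⟨h3.1, h3.2, h4⟩
  · intro q hq
    have h3 := F.win _ (h2 q hq) (by norm_num)
    have h4 := F.typB _ (h2 q hq) (by norm_num) (by simp [plen])
    simp only [wL, wR] at h3
    norm_num at h3
    exact ⟨h3.1, h3.2, h4⟩
  · intro q hq q' hq' h
    have := F.uniq _ _ (h1 q hq) (h1 q' hq') (by norm_num) (by norm_num) rfl h
    simpa using this
  · intro q hq q' hq' h
    have := F.uniq _ _ (h2 q hq) (h2 q' hq') (by norm_num) (by norm_num) rfl h
    simpa using this

theorem Fills.front {n : ℕ} {H : List (List ℕ)} {X : Lbl → Prop} {gp : Lbl → ℕ} {A : ℕ → Prop}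
    (F : Fills n H X gp A) (s : ℕ) (hs : s < H.length) :
    ∀ i < n, (A (2 * n * s + i) ↔ A i) := by
  induction s with
  | zero => intro i _; simp
  | succ s ih =>
    intro i hi
    have h1 := ih (by omega) i hi
    have h2 := F.copyE s (by omega) i hi
    have h3 := F.copyO s (by omega) (n - 1 - i) (by omega)
    have e1 : 2 * n * s + n + (n - 1 - i) = 2 * n * s + (2 * n - 1 - i) := by omega
    have e2 : 2 * n * s + n + (2 * n - 1 - (n - 1 - i)) = 2 * n * (s + 1) + i := by
      have : 2 * n * (s + 1) = 2 * n * s + 2 * n := by ring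
      omega
    rw [e1, e2] at h3
    tauto

theorem Fills.back {n : ℕ} {H : List (List ℕ)} {X : Lbl → Prop} {gp : Lbl → ℕ} {A : ℕ → Prop}
    (F : Fills n H X gp A) (s : ℕ) (hs : s < H.length) :
    ∀ i < n, (A (2 * n * s + (2 * n - 1 - i)) ↔ ¬ A i) := by
  intro i hi
  have h1 := F.front s hs i hi
  have h2 := F.copyE s hs i hi
  tauto

/-- the block of a gap -/
theorem block_unique {n s s' a b : ℕ} (ha : a < 2 * n) (hb : b < 2 * n)
    (h : 2 * n * s + a = 2 * n * s' + b) : s = s' ∧ a = b := by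
  have h1 : s = s' := by
    rcases lt_trichotomy s s' with h3 | h3 | h3
    · exfalso
      have : 2 * n * s + 2 * n ≤ 2 * n * s' := by
        calc 2 * n * s + 2 * n = 2 * n * (s + 1) := by ring
          _ ≤ _ := Nat.mul_le_mul_left _ h3
      omega
    · exact h3
    · exfalso
      have : 2 * n * s' + 2 * n ≤ 2 * n * s := by
        calc 2 * n * s' + 2 * n = 2 * n * (s' + 1) := by ring
          _ ≤ _ := Nat.mul_le_mul_left _ h3
      omega
  subst h1
  exact ⟨rfl, by omega⟩

/-- a window of a floating job determines its block -/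
theorem block_of_mem {n s s' a : ℕ} (ha : a < 2 * n) (h1 : 2 * n * s' ≤ 2 * n * s + a)
    (h2 : 2 * n * s + a ≤ 2 * n * s' + (2 * n - 1)) : s' = s := by
  have h3 : 2 * n * s + a = 2 * n * s' + (2 * n * s + a - 2 * n * s') := by omega
  exact (block_unique ha (by omega) h3).1.symm

theorem Fills.nae {n : ℕ} {H : List (List ℕ)} {X : Lbl → Prop} {gp : Lbl → ℕ} {A : ℕ → Prop}
    (F : Fills n H X gp A) (h2 : ∀ s < H.length, 2 ≤ (good n (H.getD s [])).length)
    (s : ℕ) (hs : s < H.length) :
    (∃ i ∈ good n (H.getD s []), A i) ∧ (∃ i ∈ good n (H.getD s []), ¬ A i) := by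
  classical
  set G := (good n (H.getD s [])).toFinset with hG
  have memG : ∀ i, i ∈ G ↔ i < n ∧ i ∈ H.getD s [] := fun i => by
    rw [hG, List.mem_toFinset, mem_good]
  have hGc : G.card = (good n (H.getD s [])).length := by
    rw [hG, List.toFinset_card_of_nodup (nodup_good _ _)]
  -- the clause gap of type `A` of a variable
  set γ : ℕ → ℕ := fun i => if A i then 2 * n * s + i else 2 * n * s + (2 * n - 1 - i) with hγ
  have hγA : ∀ i < n, A (γ i) := by
    intro i hi
    simp only [hγ]
    split_ifs with h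
    · exact (F.front s hs i hi).2 h
    · exact (F.back s hs i hi).2 h
  have hN : 2 * n * s + 2 * n ≤ 2 * n * H.length := by
    calc 2 * n * s + 2 * n = 2 * n * (s + 1) := by ring
      _ ≤ 2 * n * H.length := Nat.mul_le_mul_left _ hs
  have hγN : ∀ i < n, γ i < 2 * n * H.length := by
    intro i hi
    simp only [hγ]
    split_ifs <;> omega
  have hγinj : ∀ i < n, ∀ j < n, γ i = γ j → i = j := by
    intro i hi j hj h
    simp only [hγ] at h
    split_ifs at h <;> omega
  have hex : ∀ i : ℕ, ∃ l : Lbl, i ∈ G → X l ∧ l.1 ≠ 0 ∧ plen l.1 = 20 ∧ gp l = γ i := by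
    intro i
    by_cases hi : i ∈ G
    · have hi' := (memG i).1 hi
      obtain ⟨l, hl⟩ := F.full (γ i) (hγN i hi'.1) (hγA i hi'.1)
      exact ⟨l, fun _ => hl⟩
    · exact ⟨(0, 0, 0), fun h => absurd h hi⟩
  choose φ hφ using hex
  -- the floating jobs of the edge
  set Fl : Finset Lbl := insert (8, s, 0) (insert (9, s, 0)
    ((Finset.range ((good n (H.getD s [])).length - 2)).image (fun k => ((10, s, k) : Lbl)))) with hFl
  have hFlc : Fl.card = (good n (H.getD s [])).length := by
    have := h2 s hs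
    rw [hFl, Finset.card_insert_of_notMem (by simp), Finset.card_insert_of_notMem (by simp),
      Finset.card_image_of_injective _ (by intro a b h; simpa using h), Finset.card_range]
    omega
  have hmaps : ∀ i ∈ G, φ i ∈ Fl := by
    intro i hi
    obtain ⟨h3, h4, h5, h6⟩ := hφ i hi
    obtain ⟨hin, hie⟩ := (memG i).1 hi
    have h7 := F.sub _ h3
    have h8 := F.win _ h3 h4
    rw [h6] at h8
    obtain ⟨⟨k, s', q⟩, hl⟩ : ∃ l : Lbl, l = φ i := ⟨_, rfl⟩
    rw [← hl] at h4 h5 h7 h8 ⊢
    simp only at h4 h5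
    have hga : ∃ a < 2 * n, γ i = 2 * n * s + a ∧ (a = i ∨ a = 2 * n - 1 - i) := by
      simp only [hγ]
      split_ifs
      · exact ⟨i, by omega, rfl, Or.inl rfl⟩
      · exact ⟨2 * n - 1 - i, by omega, rfl, Or.inr rfl⟩
    obtain ⟨a, ha, ha', ha''⟩ := hga
    rw [ha'] at h8
    rw [mem_labels] at h7
    rcases h7 with ⟨rfl, rfl, h⟩ | ⟨rfl | rfl, h1, h2⟩ | ⟨rfl | rfl, h1, h2⟩ |
      ⟨rfl | rfl, rfl, h2⟩ | ⟨rfl | rfl, h1, h2⟩ | ⟨rfl | rfl, h1, rfl⟩ | ⟨rfl, h1, h2⟩
    · exact absurd rfl h4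
    · simp [plen] at h5
    · simp [plen] at h5
    · simp [plen] at h5
    · simp [plen] at h5
    · simp [plen] at h5
    · simp [plen] at h5
    · exfalso
      rw [mem_bad] at h2
      simp only [wL, wR] at h8
      norm_num at h8
      have h9 : 2 * n * s + a = 2 * n * s' + q := by omega
      obtain ⟨rfl, rfl⟩ := block_unique ha (by omega) h9
      rcases ha'' with rfl | h10
      · exact h2.2 hie
      · omega
    · exfalso
      rw [mem_bad] at h2
      simp only [wL, wR] at h8
      norm_num at h8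
      have h9 : 2 * n * s + a = 2 * n * s' + (2 * n - 1 - q) := by omega
      obtain ⟨rfl, h10⟩ := block_unique ha (by omega) h9
      rcases ha'' with rfl | h11
      · omega
      · have : q = i := by omega
        subst this
        exact h2.2 hie
    · simp only [wL, wR] at h8
      norm_num at h8
      have h10 : s' = s := block_of_mem (n := n) (s := s) (s' := s') (a := a) ha (by omega) (by omega)
      subst h10
      rw [hFl]; simp
    · simp only [wL, wR] at h8
      norm_num at h8
      have h10 : s' = s := block_of_mem (n := n) (s := s) (s' := s') (a := a) ha (by omega) (by omega)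
      subst h10
      rw [hFl]; simp
    · simp only [wL, wR] at h8
      norm_num at h8
      have h10 : s' = s := block_of_mem (n := n) (s := s) (s' := s') (a := a) ha h8.1 h8.2
      subst h10
      rw [hFl]
      exact Finset.mem_insert_of_mem (Finset.mem_insert_of_mem
        (Finset.mem_image.2 ⟨q, Finset.mem_range.2 h2, rfl⟩))
  have hφinj : ∀ i ∈ G, ∀ j ∈ G, φ i = φ j → i = j := by
    intro i hi j hj h
    have h3 := (hφ i hi).2.2.2
    have h4 := (hφ j hj).2.2.2
    rw [h] at h3
    exact hγinj i ((memG i).1 hi).1 j ((memG j).1 hj).1 (h3.symm.trans h4)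
  have hsurj : ∀ l ∈ Fl, ∃ i ∈ G, φ i = l := by
    have h3 : G.image φ = Fl := by
      apply Finset.eq_of_subset_of_card_le
      · intro l hl
        obtain ⟨i, hi, rfl⟩ := Finset.mem_image.1 hl
        exact hmaps i hi
      · rw [Finset.card_image_of_injOn (by
          intro i hi j hj h; exact hφinj i hi j hj h), hGc, hFlc]
    intro l hl
    rw [← h3] at hl
    obtain ⟨i, hi, h4⟩ := Finset.mem_image.1 hl
    exact ⟨i, hi, h4⟩
  constructor
  · obtain ⟨i, hi, h3⟩ := hsurj (8, s, 0) (by rw [hFl]; simp)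
    obtain ⟨h4, h5, h6, h7⟩ := hφ i hi
    obtain ⟨hin, hie⟩ := (memG i).1 hi
    refine ⟨i, mem_good.2 ⟨hin, hie⟩, ?_⟩
    by_contra hA
    have h8 := F.win _ h4 h5
    rw [h7, h3] at h8
    simp only [hγ, if_neg hA, wL, wR] at h8
    norm_num at h8
    omega
  · obtain ⟨i, hi, h3⟩ := hsurj (9, s, 0) (by rw [hFl]; simp)
    obtain ⟨h4, h5, h6, h7⟩ := hφ i hi
    obtain ⟨hin, hie⟩ := (memG i).1 hi
    refine ⟨i, mem_good.2 ⟨hin, hie⟩, ?_⟩
    intro hA
    have h8 := F.win _ h4 h5
    rw [h7, h3] at h8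
    simp only [hγ, if_pos hA, wL, wR] at h8
    norm_num at h8
    omega

end Pool.Agent.LateJobs
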