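import Mathlib

/-!
# Two combinatorial lemmas: packing of intervals, and nested windows.
-/

namespace Pool.Agent.LateJobs

open MeasureTheory

/-- disjoint intervals in `[a, b)` have total length at most `b - a` -/
theorem pack {ι : Type*} (X : Finset ι) (S p : ι → ℝ) (hp : ∀ i ∈ X, 0 ≤ p i) (a b : ℝ)
    (hab : a ≤ b) (ha : ∀ i ∈ X, a ≤ S i) (hb : ∀ i ∈ X, S i + p i ≤ b)
    (hd : ∀ i ∈ X, ∀ j ∈ X, i ≠ j → Disjoint (Set.Ico (S i) (S i + p i)) (Set.Ico (S j) (S j + p j))) :
    ∑ i ∈ X, p i ≤ b - a := by
  classical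
  have h1 : volume (⋃ i ∈ X, Set.Ico (S i) (S i + p i)) =
      ∑ i ∈ X, volume (Set.Ico (S i) (S i + p i)) :=
    measure_biUnion_finset (fun i hi j hj hij => hd i hi j hj hij) (fun i _ => measurableSet_Ico)
  have h2 : volume (⋃ i ∈ X, Set.Ico (S i) (S i + p i)) ≤ volume (Set.Ico a b) := by
    apply measure_mono
    intro x hx
    simp only [Set.mem_iUnion, Set.mem_Ico] at hx ⊢
    obtain ⟨i, hi, h3, h4⟩ := hx
    exact ⟨(ha i hi).trans h3, h4.trans_le (hb i hi)⟩
  rw [h1, Real.volume_Ico] at h2
  have h3 : ∀ i ∈ X, volume (Set.Ico (S i) (S i + p i)) = ENNReal.ofReal (p i) := by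
    intro i _
    rw [Real.volume_Ico]; congr 1; ring
  rw [Finset.sum_congr rfl h3, ← ENNReal.ofReal_sum_of_nonneg hp] at h2
  exact (ENNReal.ofReal_le_ofReal_iff (by linarith)).1 h2

/-- nested windows: if `n` points of type `A` and `n` points not of type `A` are chosen, the
`q`-th ones in the window `[o + q, o + 2n - 1 - q]`, then exactly one end of every window is of
type `A` -/
theorem nested (n o : ℕ) (A : ℕ → Prop) (f f' : ℕ → ℕ)
    (hf : ∀ q < n, o + q ≤ f q ∧ f q ≤ o + (2 * n - 1 - q) ∧ A (f q))
    (hf' : ∀ q < n, o + q ≤ f' q ∧ f' q ≤ o + (2 * n - 1 - q) ∧ ¬ A (f' q))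
    (hi : ∀ q < n, ∀ q' < n, f q = f q' → q = q')
    (hi' : ∀ q < n, ∀ q' < n, f' q = f' q' → q = q') :
    ∀ q < n, (A (o + q) ↔ ¬ A (o + (2 * n - 1 - q))) := by
  classical
  -- number of points of type `A` in the window
  have key : ∀ q ≤ n, ((Finset.Ico (o + q) (o + (2 * n - q))).filter A).card = n - q := by
    intro q hq
    have h1 : n - q ≤ ((Finset.Ico (o + q) (o + (2 * n - q))).filter A).card := by
      have : ((Finset.Ico q n).image f).card = n - q := by
        rw [Finset.card_image_of_injOn, Nat.card_Ico]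
        intro a ha b hb hab
        simp only [Finset.coe_Ico, Set.mem_Ico] at ha hb
        exact hi a ha.2 b hb.2 hab
      rw [← this]
      apply Finset.card_le_card
      intro x hx
      simp only [Finset.mem_image, Finset.mem_Ico] at hx
      obtain ⟨a, ha, rfl⟩ := hx
      have := hf a ha.2
      simp only [Finset.mem_filter, Finset.mem_Ico]
      exact ⟨⟨by omega, by omega⟩, this.2.2⟩
    have h2 : n - q ≤ ((Finset.Ico (o + q) (o + (2 * n - q))).filter (fun x => ¬ A x)).card := by
      have : ((Finset.Ico q n).image f').card = n - q := by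
        rw [Finset.card_image_of_injOn, Nat.card_Ico]
        intro a ha b hb hab
        simp only [Finset.coe_Ico, Set.mem_Ico] at ha hb
        exact hi' a ha.2 b hb.2 hab
      rw [← this]
      apply Finset.card_le_card
      intro x hx
      simp only [Finset.mem_image, Finset.mem_Ico] at hx
      obtain ⟨a, ha, rfl⟩ := hx
      have := hf' a ha.2
      simp only [Finset.mem_filter, Finset.mem_Ico]
      exact ⟨⟨by omega, by omega⟩, this.2.2⟩
    have h3 := Finset.card_filter_add_card_filter_not (s := Finset.Ico (o + q) (o + (2 * n - q))) A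
    rw [Nat.card_Ico] at h3
    omega
  intro q hq
  have h1 := key q hq.le
  have h2 := key (q + 1) hq
  have h3 : Finset.Ico (o + q) (o + (2 * n - q)) =
      insert (o + q) (insert (o + (2 * n - 1 - q)) (Finset.Ico (o + (q + 1)) (o + (2 * n - (q + 1))))) := by
    ext x
    simp only [Finset.mem_insert, Finset.mem_Ico]
    omega
  rw [h3, Finset.filter_insert, Finset.filter_insert] at h1
  have n1 : o + (2 * n - 1 - q) ∉ Finset.filter A (Finset.Ico (o + (q + 1)) (o + (2 * n - (q + 1)))) := by
    simp only [Finset.mem_filter, Finset.mem_Ico]; omega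
  have n2 : o + q ∉ Finset.filter A (Finset.Ico (o + (q + 1)) (o + (2 * n - (q + 1)))) := by
    simp only [Finset.mem_filter, Finset.mem_Ico]; omega
  have n3 : o + q ∉ insert (o + (2 * n - 1 - q))
      (Finset.filter A (Finset.Ico (o + (q + 1)) (o + (2 * n - (q + 1))))) := by
    simp only [Finset.mem_insert, Finset.mem_filter, Finset.mem_Ico]; omega
  by_cases hA : A (o + q) <;> by_cases hB : A (o + (2 * n - 1 - q))
  · rw [if_pos hA, if_pos hB, Finset.card_insert_of_notMem n3, Finset.card_insert_of_notMem n1] at h1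
    omega
  · simp [hA, hB]
  · simp [hA, hB]
  · rw [if_neg hA, if_neg hB] at h1
    omega

end Pool.Agent.LateJobs
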