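import Mathlib
import Pool.Prelude.Def_F_458e953d

/-!
# Minimising the (weighted) number of late jobs with bounded processing times

An instance of `1 | r_j, p_j ≤ c | Σ U_j` is a list of jobs `(r_j, p_j, d_j)`: release date
`r_j ∈ ℕ`, processing time `p_j ∈ {1, ..., c}`, due date `d_j ∈ ℤ`.  All numbers are written in
binary (`bitEncode`).
-/

open N68a2faeb N793a5b8e N487b59b3

namespace Pool.Agent.LateJobs

/-- `S` is a feasible single-machine schedule without preemption of `n` jobs with release dates
`r` and processing times `p`: the start times are real numbers, no job starts before its release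
date, and the machine processes at most one job at a time. -/
def IsSchedule {n : ℕ} (r p : Fin n → ℕ) (S : Fin n → ℝ) : Prop :=
  (∀ j, (r j : ℝ) ≤ S j) ∧
  ∀ i j, i ≠ j → Disjoint (Set.Ico (S i) (S i + p i)) (Set.Ico (S j) (S j + p j))

open Classical in
/-- The set of late jobs: those whose completion time exceeds the due date. -/
noncomputable def lateSet {n : ℕ} (p : Fin n → ℕ) (d : Fin n → ℤ) (S : Fin n → ℝ) :
    Finset (Fin n) :=
  Finset.univ.filter fun j => (d j : ℝ) < S j + p j

open Classical in
/-- The decision version of `1 | r_j, p_j ≤ c | Σ U_j`: a bit string is accepted if it is the code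
of a list `J` of jobs `(r_j, p_j, d_j)` with `1 ≤ p_j ≤ c`, together with a number `k`, such that
some schedule has at most `k` late jobs. -/
noncomputable def lateJobs (c : ℕ) : DecisionProblem := fun s => decide
  (∃ (J : List (ℕ × ℕ × ℤ)) (k : ℕ), s = bitEncode (J, k) ∧ (∀ j ∈ J, 1 ≤ j.2.1 ∧ j.2.1 ≤ c) ∧
    ∃ S : Fin J.length → ℝ, IsSchedule (fun j => (J.get j).1) (fun j => (J.get j).2.1) S ∧
      (lateSet (fun j => (J.get j).2.1) (fun j => (J.get j).2.2) S).card ≤ k)

open Classical in
/-- The decision version of `1 | r_j, p_j ≤ c | Σ w_j U_j`: a bit string is accepted if it is the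
code of a list `J` of jobs `(r_j, p_j, d_j, w_j)` with `1 ≤ p_j ≤ c`, together with a number `k`,
such that some schedule has total weight of late jobs at most `k`. -/
noncomputable def weightedLateJobs (c : ℕ) : DecisionProblem := fun s => decide
  (∃ (J : List (ℕ × ℕ × ℤ × ℕ)) (k : ℕ), s = bitEncode (J, k) ∧
    (∀ j ∈ J, 1 ≤ j.2.1 ∧ j.2.1 ≤ c) ∧
    ∃ S : Fin J.length → ℝ, IsSchedule (fun j => (J.get j).1) (fun j => (J.get j).2.1) S ∧
      ∑ j ∈ lateSet (fun j => (J.get j).2.1) (fun j => (J.get j).2.2.1) S, (J.get j).2.2.2 ≤ k)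

end Pool.Agent.LateJobs
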