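import Pool.Agent.Lib.MP_1ce42f_lc.Forward
import Pool.Agent.Lib.MP_1ce42f_lc.Defs
import Pool.Agent.Lib.MP_17a834_lc.Msr.Nae

/-!
# The instance has a schedule with few late jobs iff the hypergraph is not-all-equal colourable
-/

open N68a2faeb N793a5b8e N487b59b3

namespace Pool.Agent.LateJobs

/-- schedules of an indexed family of jobs, in terms of labels -/
theorem schedule_iff (L : List Lbl) (hL : L.Nodup) (r p : Lbl → ℕ) (d : Lbl → ℤ) (k : ℕ) :
    (∃ S : Fin L.length → ℝ, IsSchedule (fun j => r (L.get j)) (fun j => p (L.get j)) S ∧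
      (lateSet (fun j => p (L.get j)) (fun j => d (L.get j)) S).card ≤ k) ↔
    ∃ T : Lbl → ℝ, (∀ l ∈ L, (r l : ℝ) ≤ T l) ∧
      (∀ l ∈ L, ∀ l' ∈ L, l ≠ l' →
        Disjoint (Set.Ico (T l) (T l + p l)) (Set.Ico (T l') (T l' + p l'))) ∧
      (L.toFinset.filter (fun l => (d l : ℝ) < T l + p l)).card ≤ k := by
  classical
  constructor
  · rintro ⟨S, ⟨h1, h2⟩, h3⟩
    have hidx : ∀ l ∈ L, L.idxOf l < L.length := fun l hl => List.idxOf_lt_length_of_mem hl
    set T : Lbl → ℝ := fun l => if h : l ∈ L then S ⟨L.idxOf l, hidx l h⟩ else 0 with hT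
    have hTe : ∀ l (h : l ∈ L), T l = S ⟨L.idxOf l, hidx l h⟩ := by
      intro l h; simp only [hT, dif_pos h]
    have hget : ∀ l (h : l ∈ L), L.get ⟨L.idxOf l, hidx l h⟩ = l := by
      intro l h; simp
    refine ⟨T, ?_, ?_, ?_⟩
    · intro l hl
      have := h1 ⟨L.idxOf l, hidx l hl⟩
      simp only [hget l hl] at this
      rw [hTe l hl]; exact this
    · intro l hl l' hl' hne
      have := h2 ⟨L.idxOf l, hidx l hl⟩ ⟨L.idxOf l', hidx l' hl'⟩ (by
        intro h
        apply hne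
        rw [← hget l hl, ← hget l' hl', h])
      simp only [hget l hl, hget l' hl'] at this
      rw [hTe l hl, hTe l' hl']; exact this
    · refine le_trans ?_ h3
      refine le_trans (Finset.card_le_card (t := (lateSet (fun j => p (L.get j))
        (fun j => d (L.get j)) S).image (fun j => L.get j)) ?_) Finset.card_image_le
      intro l hl
      rw [Finset.mem_filter, List.mem_toFinset] at hl
      rw [Finset.mem_image]
      refine ⟨⟨L.idxOf l, hidx l hl.1⟩, ?_, hget l hl.1⟩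
      simp only [lateSet, Finset.mem_filter, Finset.mem_univ, true_and]
      rw [hget l hl.1, ← hTe l hl.1]
      exact hl.2
  · rintro ⟨T, h1, h2, h3⟩
    refine ⟨fun j => T (L.get j), ⟨fun j => h1 _ (List.get_mem _ _), ?_⟩, ?_⟩
    · intro i j hij
      apply h2 _ (List.get_mem _ _) _ (List.get_mem _ _)
      intro h
      exact hij (List.nodup_iff_injective_get.1 hL h)
    · refine le_trans ?_ h3
      apply Finset.card_le_card_of_injOn (fun j => L.get j)
      · intro j hj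
        simp only [lateSet, Finset.coe_filter, Finset.mem_univ, true_and, Set.mem_ofPred_eq] at hj ⊢
        exact ⟨List.mem_toFinset.2 (List.get_mem _ _), hj⟩
      · intro i _ j _ h
        exact List.nodup_iff_injective_get.1 hL h

/-- the instance of a hypergraph -/
def jobs (n : ℕ) (H : List (List ℕ)) : List (ℕ × ℕ × ℤ) :=
  (labels n H).map (fun l => (jr n l, plen l.1, ((jd n H.length l : ℕ) : ℤ)))

theorem getD_mem {H : List (List ℕ)} {s : ℕ} (hs : s < H.length) : H.getD s [] ∈ H := by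
  rw [List.getD_eq_getElem _ _ hs]
  exact List.getElem_mem _

theorem nae_iff (n : ℕ) (hn : 0 < n) (H : List (List ℕ)) (hm : 0 < H.length)
    (hH : ∀ e ∈ H, ∀ u ∈ e, u < n) (h2 : ∀ e ∈ H, 2 ≤ (good n e).length) :
    (∃ T : Lbl → ℝ, (∀ l ∈ labels n H, (jr n l : ℝ) ≤ T l) ∧
      (∀ l ∈ labels n H, ∀ l' ∈ labels n H, l ≠ l' →
        Disjoint (Set.Ico (T l) (T l + plen l.1)) (Set.Ico (T l') (T l' + plen l'.1))) ∧
      ((labels n H).toFinset.filter
        (fun l => (((jd n H.length l : ℕ) : ℤ) : ℝ) < T l + plen l.1)).card ≤ kk n H) ↔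
    MSR.NAE H := by
  classical
  have h2' : ∀ s < H.length, 2 ≤ (good n (H.getD s [])).length := fun s hs => h2 _ (getD_mem hs)
  constructor
  · rintro ⟨T, h3, h4, h5⟩
    simp only [Int.cast_natCast] at h5
    obtain ⟨X, gp, A, F⟩ := exists_fills n hn H hm h2' T h3 h4 h5
    refine ⟨fun i => decide (A i), ?_⟩
    intro e he
    obtain ⟨s, hs, rfl⟩ := List.getElem_of_mem he
    obtain ⟨⟨i, hi, hAi⟩, ⟨j, hj, hAj⟩⟩ := F.nae h2' s hs
    rw [List.getD_eq_getElem _ _ hs, mem_good] at hi hj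
    exact ⟨i, hi.2, j, hj.2, by simp [hAi, hAj]⟩
  · rintro ⟨ξ, hξ⟩
    have h3 : ∀ s < H.length, ∃ a b, (a ∈ good n (H.getD s []) ∧ ξ a = true) ∧
        (b ∈ good n (H.getD s []) ∧ ξ b = false) := by
      intro s hs
      obtain ⟨a, ha, b, hb, hab⟩ := hξ _ (getD_mem hs)
      have ha' : a ∈ good n (H.getD s []) := mem_good.2 ⟨hH _ (getD_mem hs) a ha, ha⟩
      have hb' : b ∈ good n (H.getD s []) := mem_good.2 ⟨hH _ (getD_mem hs) b hb, hb⟩
      cases h4 : ξ a
      · refine ⟨b, a, ⟨hb', ?_⟩, ⟨ha', h4⟩⟩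
        cases h5 : ξ b
        · rw [h4, h5] at hab; exact absurd rfl hab
        · rfl
      · refine ⟨a, b, ⟨ha', h4⟩, ⟨hb', ?_⟩⟩
        cases h5 : ξ b
        · rfl
        · rw [h4, h5] at hab; exact absurd rfl hab
    have h4 : ∀ s : ℕ, ∃ a b, s < H.length → ((a ∈ good n (H.getD s []) ∧ ξ a = true) ∧
        (b ∈ good n (H.getD s []) ∧ ξ b = false)) := by
      intro s
      by_cases hs : s < H.length
      · obtain ⟨a, b, h⟩ := h3 s hs
        exact ⟨a, b, fun _ => h⟩
      · exact ⟨0, 0, fun h => absurd h hs⟩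
    choose a b hab using h4
    set rest : ℕ → List ℕ := fun s => ((good n (H.getD s [])).erase (a s)).erase (b s) with hrest
    have C : Col n H ξ a b rest := by
      refine ⟨hn, hm, fun s hs => (hab s hs).1, fun s hs => (hab s hs).2, ?_, ?_, ?_⟩
      · intro s _
        exact ((nodup_good _ _).erase _).erase _
      · intro s _ i hi
        have h5 := (((nodup_good n (H.getD s [])).erase (a s)).mem_erase_iff).1 hi
        have h6 := ((nodup_good n (H.getD s [])).mem_erase_iff).1 h5.2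
        exact ⟨h6.2, h6.1, h5.1⟩
      · intro s hs
        have hne : b s ≠ a s := by
          intro h
          have h5 := (hab s hs).1.2
          have h6 := (hab s hs).2.2
          rw [h, h5] at h6
          exact Bool.noConfusion h6
        simp only [hrest]
        rw [List.length_erase_of_mem, List.length_erase_of_mem (hab s hs).1.1]
        · omega
        · exact ((nodup_good n (H.getD s [])).mem_erase_iff).2 ⟨hne, (hab s hs).2.1⟩
    refine ⟨fun l => (Tn n H.length ξ a b rest l : ℝ), ?_, ?_, ?_⟩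
    · intro l hl
      exact Nat.cast_le.2 (C.release hl)
    · intro l hl l' hl' hne
      rw [Set.disjoint_left]
      intro x hx hx'
      have h5 := C.disj hl hl' hne
      rw [Set.mem_Ico] at hx hx'
      rcases h5 with h5 | h5
      · have h6 : ((Tn n H.length ξ a b rest l + plen l.1 : ℕ) : ℝ) ≤
            (Tn n H.length ξ a b rest l' : ℝ) := Nat.cast_le.2 h5
        push_cast at h6
        linarith [hx.2, hx'.1]
      · have h6 : ((Tn n H.length ξ a b rest l' + plen l'.1 : ℕ) : ℝ) ≤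
            (Tn n H.length ξ a b rest l : ℝ) := Nat.cast_le.2 h5
        push_cast at h6
        linarith [hx'.2, hx.1]
    · refine le_trans (le_of_eq ?_) C.late_card
      congr 1
      ext l
      simp only [Finset.mem_filter, Int.cast_natCast]
      constructor
      · rintro ⟨h5, h6⟩
        exact ⟨h5, by exact_mod_cast h6⟩
      · rintro ⟨h5, h6⟩
        exact ⟨h5, by exact_mod_cast h6⟩

theorem lateJobs_iff (c : ℕ) (J : List (ℕ × ℕ × ℤ)) (k : ℕ) :
    lateJobs c (bitEncode (J, k)) = true ↔ (∀ j ∈ J, 1 ≤ j.2.1 ∧ j.2.1 ≤ c) ∧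
      ∃ S : Fin J.length → ℝ, IsSchedule (fun j => (J.get j).1) (fun j => (J.get j).2.1) S ∧
      (lateSet (fun j => (J.get j).2.1) (fun j => (J.get j).2.2) S).card ≤ k := by
  unfold lateJobs
  simp only [decide_eq_true_iff]
  constructor
  · rintro ⟨J', k', h1, h2, h3⟩
    have h4 := bitEncode_injective h1
    rw [Prod.mk.injEq] at h4
    obtain ⟨rfl, rfl⟩ := h4
    exact ⟨h2, h3⟩
  · rintro ⟨h2, h3⟩
    exact ⟨J, k, rfl, h2, h3⟩

theorem weightedLateJobs_iff (c : ℕ) (J : List (ℕ × ℕ × ℤ × ℕ)) (k : ℕ) :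
    weightedLateJobs c (bitEncode (J, k)) = true ↔ (∀ j ∈ J, 1 ≤ j.2.1 ∧ j.2.1 ≤ c) ∧
      ∃ S : Fin J.length → ℝ, IsSchedule (fun j => (J.get j).1) (fun j => (J.get j).2.1) S ∧
      ∑ j ∈ lateSet (fun j => (J.get j).2.1) (fun j => (J.get j).2.2.1) S,
        (J.get j).2.2.2 ≤ k := by
  unfold weightedLateJobs
  simp only [decide_eq_true_iff]
  constructor
  · rintro ⟨J', k', h1, h2, h3⟩
    have h4 := bitEncode_injective h1
    rw [Prod.mk.injEq] at h4
    obtain ⟨rfl, rfl⟩ := h4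
    exact ⟨h2, h3⟩
  · rintro ⟨h2, h3⟩
    exact ⟨J, k, rfl, h2, h3⟩

theorem cast_aux (N M : ℕ) (h : N = M) (r p : Fin M → ℕ) (d : Fin M → ℤ) (k : ℕ) :
    (∃ S : Fin N → ℝ, IsSchedule (fun j => r (Fin.cast h j)) (fun j => p (Fin.cast h j)) S ∧
      (lateSet (fun j => p (Fin.cast h j)) (fun j => d (Fin.cast h j)) S).card ≤ k) ↔
    ∃ S : Fin M → ℝ, IsSchedule r p S ∧ (lateSet p d S).card ≤ k := by
  subst h
  rfl

theorem get_map_cast {α β : Type} (L : List α) (f : α → β) (h : (L.map f).length = L.length)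
    (j : Fin (L.map f).length) : (L.map f).get j = f (L.get (Fin.cast h j)) := by
  simp

theorem plen_bounds (l : Lbl) : 1 ≤ plen l.1 ∧ plen l.1 ≤ 20 := ⟨plen_pos _, plen_le _⟩

/-- **correctness of the reduction, unit weights** -/
theorem lateJobs_jobs (c : ℕ) (hc : 20 ≤ c) (n : ℕ) (hn : 0 < n) (H : List (List ℕ))
    (hm : 0 < H.length) (hH : ∀ e ∈ H, ∀ u ∈ e, u < n) (h2 : ∀ e ∈ H, 2 ≤ (good n e).length) :
    lateJobs c (bitEncode (jobs n H, kk n H)) = true ↔ MSR.NAE H := by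
  rw [lateJobs_iff, ← nae_iff n hn H hm hH h2]
  have h3 : ∀ j ∈ jobs n H, 1 ≤ j.2.1 ∧ j.2.1 ≤ c := by
    intro j hj
    simp only [jobs, List.mem_map] at hj
    obtain ⟨l, _, rfl⟩ := hj
    exact ⟨(plen_bounds l).1, (plen_bounds l).2.trans hc⟩
  have hlen : (jobs n H).length = (labels n H).length := by simp [jobs]
  have hget : ∀ j : Fin (jobs n H).length, (jobs n H).get j =
      (jr n ((labels n H).get (Fin.cast hlen j)), plen ((labels n H).get (Fin.cast hlen j)).1,
        ((jd n H.length ((labels n H).get (Fin.cast hlen j)) : ℕ) : ℤ)) := by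
    intro j
    exact get_map_cast (labels n H) _ hlen j
  have h4 := schedule_iff (labels n H) (nodup_labels n H) (jr n) (fun l => plen l.1)
    (fun l => ((jd n H.length l : ℕ) : ℤ)) (kk n H)
  rw [← h4, ← cast_aux _ _ hlen]
  simp only [hget]
  exact ⟨fun h => h.2, fun h => ⟨h3, h⟩⟩

/-- the instance with weights -/
def jobsW (n : ℕ) (H : List (List ℕ)) : List (ℕ × ℕ × ℤ × ℕ) :=
  (labels n H).map (fun l => (jr n l, plen l.1, ((jd n H.length l : ℕ) : ℤ), 1))

/-- **correctness of the reduction, weighted problem** -/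
theorem weightedLateJobs_jobs (c : ℕ) (hc : 20 ≤ c) (n : ℕ) (hn : 0 < n) (H : List (List ℕ))
    (hm : 0 < H.length) (hH : ∀ e ∈ H, ∀ u ∈ e, u < n) (h2 : ∀ e ∈ H, 2 ≤ (good n e).length) :
    weightedLateJobs c (bitEncode (jobsW n H, kk n H)) = true ↔ MSR.NAE H := by
  rw [weightedLateJobs_iff, ← nae_iff n hn H hm hH h2]
  have h3 : ∀ j ∈ jobsW n H, 1 ≤ j.2.1 ∧ j.2.1 ≤ c := by
    intro j hj
    simp only [jobsW, List.mem_map] at hj
    obtain ⟨l, _, rfl⟩ := hj
    exact ⟨(plen_bounds l).1, (plen_bounds l).2.trans hc⟩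
  have hlen : (jobsW n H).length = (labels n H).length := by simp [jobsW]
  have hget : ∀ j : Fin (jobsW n H).length, (jobsW n H).get j =
      (jr n ((labels n H).get (Fin.cast hlen j)), plen ((labels n H).get (Fin.cast hlen j)).1,
        ((jd n H.length ((labels n H).get (Fin.cast hlen j)) : ℕ) : ℤ), 1) := by
    intro j
    exact get_map_cast (labels n H) _ hlen j
  have h4 := schedule_iff (labels n H) (nodup_labels n H) (jr n) (fun l => plen l.1)
    (fun l => ((jd n H.length l : ℕ) : ℤ)) (kk n H)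
  rw [← h4, ← cast_aux _ _ hlen]
  simp only [hget, Finset.sum_const, smul_eq_mul, mul_one]
  exact ⟨fun h => h.2, fun h => ⟨h3, h⟩⟩

/-- an instance without solution -/
theorem lateJobs_no (c : ℕ) : lateJobs c (bitEncode (([(0, 1, 0)] : List (ℕ × ℕ × ℤ)), 0)) ≠ true := by
  classical
  rw [Ne, lateJobs_iff]
  rintro ⟨_, S, h1, h2⟩
  have h3 := Finset.card_eq_zero.1 (Nat.le_zero.1 h2)
  have h4 : (⟨0, by simp⟩ : Fin ([(0, 1, 0)] : List (ℕ × ℕ × ℤ)).length) ∈
      lateSet (fun j => (([(0, 1, 0)] : List (ℕ × ℕ × ℤ)).get j).2.1)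
        (fun j => (([(0, 1, 0)] : List (ℕ × ℕ × ℤ)).get j).2.2) S := by
    simp only [lateSet, Finset.mem_filter, Finset.mem_univ, true_and]
    have h5 := h1.1 ⟨0, by simp⟩
    simp only at h5 ⊢
    norm_num at h5 ⊢
    linarith
  rw [h3] at h4
  exact absurd h4 (Finset.notMem_empty _)

theorem weightedLateJobs_no (c : ℕ) :
    weightedLateJobs c (bitEncode (([(0, 1, 0, 1)] : List (ℕ × ℕ × ℤ × ℕ)), 0)) ≠ true := by
  classical
  rw [Ne, weightedLateJobs_iff]
  rintro ⟨_, S, h1, h2⟩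
  have h3 := Finset.sum_eq_zero_iff.1 (Nat.le_zero.1 h2)
  have h4 : (⟨0, by simp⟩ : Fin ([(0, 1, 0, 1)] : List (ℕ × ℕ × ℤ × ℕ)).length) ∈
      lateSet (fun j => (([(0, 1, 0, 1)] : List (ℕ × ℕ × ℤ × ℕ)).get j).2.1)
        (fun j => (([(0, 1, 0, 1)] : List (ℕ × ℕ × ℤ × ℕ)).get j).2.2.1) S := by
    simp only [lateSet, Finset.mem_filter, Finset.mem_univ, true_and]
    have h5 := h1.1 ⟨0, by simp⟩
    simp only at h5 ⊢
    norm_num at h5 ⊢
    linarith
  have h5 := h3 _ h4
  simp at h5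

theorem nae_no {n : ℕ} {H : List (List ℕ)} (hH : ∀ e ∈ H, ∀ u ∈ e, u < n)
    (h : ∃ e ∈ H, ¬ 2 ≤ (good n e).length) : ¬ MSR.NAE H := by
  rintro ⟨f, hf⟩
  obtain ⟨e, he, h2⟩ := h
  obtain ⟨a, ha, b, hb, hab⟩ := hf e he
  apply h2
  have h3 : a ≠ b := fun h => hab (by rw [h])
  have ha' : a ∈ good n e := mem_good.2 ⟨hH e he a ha, ha⟩
  have hb' : b ∈ good n e := mem_good.2 ⟨hH e he b hb, hb⟩
  have h4 : ({a, b} : Finset ℕ) ⊆ (good n e).toFinset := by
    intro x hx
    simp only [Finset.mem_insert, Finset.mem_singleton] at hx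
    rcases hx with rfl | rfl <;> simpa
  have h5 := Finset.card_le_card h4
  rw [Finset.card_pair h3] at h5
  exact h5.trans (List.toFinset_card_le _)

end Pool.Agent.LateJobs
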