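import Pool.Agent.Lib.MP_17a834_lc.Msr.Final

/-!
# Functions computed by `TM2` machines in polynomial time are polynomial-time in the sense of `CT`
-/

open Turing Turing.TM2 N68a2faeb N793a5b8e N487b59b3

namespace Pool.Agent.OfTM2

open Pool.Agent.MSR Pool.Agent.MSR.En Pool.Agent.MSR.Cmd

section Sim

variable {κ S Q : Type} [DecidableEq κ] {K s q : ℕ} (eK : κ ≃ Fin K) (eS : S ≃ Fin s)
  (eQ : Q ≃ Fin q) (A : Auto κ S Q)

/-- the code of a configuration -/
def conf (c : Q × (κ → List S)) : ℕ × List (List ℕ) :=
  ((eQ c.1 : ℕ), (List.finRange K).map (fun j => (c.2 (eK.symm j)).map (fun x => (eS x : ℕ))))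

/-- decode an optional symbol -/
def dec (t : ℕ) : Option S := if h : t - 1 < s ∧ t ≠ 0 then some (eS.symm ⟨t - 1, h.1⟩) else none

theorem dec_zero : dec eS 0 = none := by simp [dec]

theorem dec_succ (x : S) : dec eS ((eS x : ℕ) + 1) = some x := by
  have h : (eS x : ℕ) + 1 - 1 < s ∧ (eS x : ℕ) + 1 ≠ 0 := ⟨by simp, by omega⟩
  unfold dec
  rw [dif_pos h]
  simp

/-- the list pushed by an action -/
def psh (a : Act S) : List ℕ :=
  match a with
  | .push x => [(eS x : ℕ)]
  | _ => []

/-- does an action pop -/
def pp (a : Act S) : Bool :=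
  match a with
  | .pop => true
  | _ => false

theorem app_eq (a : Act S) (l : List S) : (a.app l).map (fun x => (eS x : ℕ)) =
    psh eS a ++ (bif pp a then (l.map (fun x => (eS x : ℕ))).tail else
      l.map (fun x => (eS x : ℕ))) := by
  cases a <;> simp [Act.app, psh, pp]

/-- table of inspected stacks -/
def stT : List ℕ := (List.finRange q).map (fun i => (eK (A.st (eQ.symm i)) : ℕ))

/-- table of next states -/
def nxT : List (List ℕ) := (List.finRange q).map (fun i => (List.range (s + 1)).map
  (fun t => (eQ (A.nx (eQ.symm i) (dec eS t)) : ℕ)))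

/-- table of pushed symbols -/
def puT : List (List (List ℕ)) := (List.finRange q).map (fun i => (List.range (s + 1)).map
  (fun t => psh eS (A.act (eQ.symm i) (dec eS t))))

/-- table of pops -/
def poT : List (List Bool) := (List.finRange q).map (fun i => (List.range (s + 1)).map
  (fun t => pp (A.act (eQ.symm i) (dec eS t))))

/-- code of the top symbol -/
def top (l : List ℕ) : ℕ := MSR.lcase l 0 (fun h _ => h + 1)

/-- one step on codes -/
def stepN (c : ℕ × List (List ℕ)) : ℕ × List (List ℕ) :=
  (((nxT eS eQ A).getD c.1 []).getD (top (c.2.getD ((stT eK eQ A).getD c.1 0) [])) 0,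
    (List.range K).map (fun j => if j = (stT eK eQ A).getD c.1 0 then
      ((puT eS eQ A).getD c.1 []).getD (top (c.2.getD ((stT eK eQ A).getD c.1 0) [])) [] ++
        (bif ((poT eS eQ A).getD c.1 []).getD (top (c.2.getD ((stT eK eQ A).getD c.1 0) [])) false
          then (c.2.getD ((stT eK eQ A).getD c.1 0) []).tail
          else c.2.getD ((stT eK eQ A).getD c.1 0) [])
      else c.2.getD j []))

theorem getD_finRange {β : Type} {n : ℕ} (F : Fin n → β) (i : Fin n) (d : β) :
    ((List.finRange n).map F).getD (i : ℕ) d = F i := by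
  rw [List.getD_eq_getElem _ _ (by simp)]
  simp

theorem getD_range {β : Type} {n : ℕ} (F : ℕ → β) {i : ℕ} (hi : i < n) (d : β) :
    ((List.range n).map F).getD i d = F i := by
  rw [List.getD_eq_getElem _ _ (by simpa using hi)]
  simp

theorem top_map (l : List S) : dec eS (top (l.map (fun x => (eS x : ℕ)))) = l.head? := by
  cases l with
  | nil => simp [top, MSR.lcase, dec_zero]
  | cons a l =>
    simp only [top, MSR.lcase, List.map_cons, List.head?_cons]
    exact dec_succ eS a

theorem top_le (l : List S) : top (l.map (fun x => (eS x : ℕ))) < s + 1 := by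
  cases l with
  | nil => simp [top, MSR.lcase]
  | cons a l => simp [top, MSR.lcase]

theorem stepN_conf (c : Q × (κ → List S)) :
    stepN eK eS eQ A (conf eK eS eQ c) = conf eK eS eQ (A.step c) := by
  obtain ⟨x, F⟩ := c
  have h1 : (stT eK eQ A).getD (conf eK eS eQ (x, F)).1 0 = (eK (A.st x) : ℕ) := by
    simp only [stT, conf]
    rw [getD_finRange]
    simp
  have h2 : ∀ k : κ, (conf eK eS eQ (x, F)).2.getD (eK k : ℕ) [] =
      (F k).map (fun x => (eS x : ℕ)) := by
    intro k
    simp only [conf]
    rw [getD_finRange]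
    simp
  have h3 := top_map eS (F (A.st x))
  have h4 := top_le eS (F (A.st x))
  have h5 : ∀ t < s + 1, ((nxT eS eQ A).getD (conf eK eS eQ (x, F)).1 []).getD t 0 =
      (eQ (A.nx x (dec eS t)) : ℕ) := by
    intro t ht
    simp only [nxT, conf]
    rw [getD_finRange, getD_range _ ht]
    simp
  have h6 : ∀ t < s + 1, ((puT eS eQ A).getD (conf eK eS eQ (x, F)).1 []).getD t [] =
      psh eS (A.act x (dec eS t)) := by
    intro t ht
    simp only [puT, conf]
    rw [getD_finRange, getD_range _ ht]
    simp
  have h7 : ∀ t < s + 1, ((poT eS eQ A).getD (conf eK eS eQ (x, F)).1 []).getD t false =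
      pp (A.act x (dec eS t)) := by
    intro t ht
    simp only [poT, conf]
    rw [getD_finRange, getD_range _ ht]
    simp
  unfold stepN
  rw [h1, h2, h5 _ h4, h6 _ h4, h7 _ h4, h3]
  unfold conf Auto.step
  simp only
  congr 1
  apply List.ext_getElem
  · simp
  · intro j hj hj'
    simp only [List.length_map, List.length_range] at hj
    simp only [List.getElem_map, List.getElem_range, List.getElem_finRange]
    by_cases hjk : j = (eK (A.st x) : ℕ)
    · have h8 : eK.symm ⟨j, hj⟩ = A.st x := by
        rw [Equiv.symm_apply_eq]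
        exact Fin.ext hjk
      rw [if_pos hjk]
      simp only [Fin.cast_mk, h8, Function.update_self]
      exact (app_eq eS _ _).symm
    · have h8 : eK.symm ⟨j, hj⟩ ≠ A.st x := by
        rw [Ne, Equiv.symm_apply_eq]
        intro h
        exact hjk (congrArg Fin.val h)
      rw [if_neg hjk]
      simp only [Fin.cast_mk, Function.update_of_ne h8]
      exact getD_finRange (fun j => (F (eK.symm j)).map (fun x => (eS x : ℕ))) ⟨j, hj⟩ []

theorem iter_conf (c : Q × (κ → List S)) (t : ℕ) :
    (stepN eK eS eQ A)^[t] (conf eK eS eQ c) = conf eK eS eQ (A.step^[t] c) := by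
  induction t generalizing c with
  | zero => rfl
  | succ t ih => rw [Function.iterate_succ_apply, Function.iterate_succ_apply, stepN_conf, ih]

theorem PT_top {α : Type} [En α] {l : α → List ℕ} (hl : PT l) : PT (fun a => top (l a)) := by
  unfold top
  exact PT.lcase hl (PT.const 0) (PT.succ (PT.fst (PT.snd PT.id')))

omit [DecidableEq κ] in
theorem PT_stepN {α : Type} [En α] {c : α → ℕ × List (List ℕ)} (hc : PT c) :
    PT (fun a => stepN eK eS eQ A (c a)) := by
  have h1 : PT (fun a => (c a).1) := PT.fst hc
  have h2 : PT (fun a => (c a).2) := PT.snd hc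
  have h3 : PT (fun a => (stT eK eQ A).getD (c a).1 0) := PT.getD h1 (PT.const _) (PT.const _)
  have h4 : PT (fun a => (c a).2.getD ((stT eK eQ A).getD (c a).1 0) []) :=
    PT.getD h3 h2 (PT.const _)
  have h5 := PT_top h4
  unfold stepN
  apply PT.pair
  · exact PT.getD h5 (PT.getD h1 (PT.const _) (PT.const _)) (PT.const _)
  · apply PT.map (PT.const _)
    have e1 : PT (fun p : α × ℕ => (stT eK eQ A).getD (c p.1).1 0) := h3.comp (PT.fst PT.id')
    have e2 : PT (fun p : α × ℕ => (c p.1).2.getD ((stT eK eQ A).getD (c p.1).1 0) []) :=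
      h4.comp (PT.fst PT.id')
    have e3 := PT_top e2
    have e4 : PT (fun p : α × ℕ => (c p.1).1) := h1.comp (PT.fst PT.id')
    have e5 : PT (fun p : α × ℕ => (c p.1).2) := h2.comp (PT.fst PT.id')
    have e6 : PT (fun p : α × ℕ => p.2) := PT.snd PT.id'
    have e7 : PT (fun p : α × ℕ => ((puT eS eQ A).getD (c p.1).1 []).getD
        (top ((c p.1).2.getD ((stT eK eQ A).getD (c p.1).1 0) [])) [] ++
        (bif ((poT eS eQ A).getD (c p.1).1 []).getD
          (top ((c p.1).2.getD ((stT eK eQ A).getD (c p.1).1 0) [])) false
          then ((c p.1).2.getD ((stT eK eQ A).getD (c p.1).1 0) []).tail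
          else (c p.1).2.getD ((stT eK eQ A).getD (c p.1).1 0) [])) := by
      apply PT.append
      · exact PT.getD e3 (PT.getD e4 (PT.const _) (PT.const _)) (PT.const _)
      · apply PT.cond
        · exact PT.getD e3 (PT.getD e4 (PT.const _) (PT.const _)) (PT.const _)
        · exact PT.tail e2
        · exact e2
    have e8 : PT (fun p : α × ℕ => (c p.1).2.getD p.2 []) := PT.getD e6 e5 (PT.const _)
    refine (PT.cond (PT.eq e6 e1) e7 e8).of_eq (fun p => ?_)
    by_cases h : p.2 = (stT eK eQ A).getD (c p.1).1 0
    · simp only [h, if_true, decide_true, cond_true]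
    · simp only [h, if_false, decide_false, cond_false]

theorem sz_list_le {β : Type} [En β] {l : List β} {B : ℕ} (h : ∀ x ∈ l, sz x ≤ B) :
    sz l ≤ l.length * (2 * B + 1) := by
  induction l with
  | nil => simp [sz_nil]
  | cons a l ih =>
    rw [sz_cons, List.length_cons]
    have h1 := h a List.mem_cons_self
    have h2 := ih (fun x hx => h x (List.mem_cons_of_mem _ hx))
    nlinarith

omit [DecidableEq κ] in
theorem sz_conf {N : ℕ} (c : Q × (κ → List S)) (h : ∀ k, (c.2 k).length ≤ N) :
    sz (conf eK eS eQ c) ≤ 2 * q + 1 + K * (2 * (N * (2 * s + 1)) + 1) := by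
  unfold conf
  rw [sz_pair, sz_nat]
  have h1 : (eQ c.1 : ℕ) < q := (eQ c.1).2
  have h2 : ∀ x ∈ (List.finRange K).map (fun j => (c.2 (eK.symm j)).map (fun x => (eS x : ℕ))),
      sz x ≤ N * (2 * s + 1) := by
    intro x hx
    rw [List.mem_map] at hx
    obtain ⟨j, _, rfl⟩ := hx
    refine (sz_list_le (B := s) ?_).trans ?_
    · intro y hy
      rw [List.mem_map] at hy
      obtain ⟨z, _, rfl⟩ := hy
      rw [sz_nat]
      exact (eS z).2.le
    · rw [List.length_map]
      exact Nat.mul_le_mul_right _ (h _)
  have h3 := sz_list_le h2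
  rw [List.length_map, List.length_finRange] at h3
  omega

theorem app_length (a : Act S) (l : List S) : (a.app l).length ≤ l.length + 1 := by
  cases a <;> simp [Act.app]
  omega

theorem step_length {N : ℕ} (c : Q × (κ → List S)) (h : ∀ k, (c.2 k).length ≤ N) (k : κ) :
    ((A.step c).2 k).length ≤ N + 1 := by
  unfold Auto.step
  simp only
  by_cases hk : k = A.st c.1
  · subst hk
    rw [Function.update_self]
    exact (app_length _ _).trans (Nat.succ_le_succ (h _))
  · rw [Function.update_of_ne hk]
    exact (h k).trans (Nat.le_succ _)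

theorem iter_length {N : ℕ} (c : Q × (κ → List S)) (h : ∀ k, (c.2 k).length ≤ N) (t : ℕ) (k : κ) :
    ((A.step^[t] c).2 k).length ≤ N + t := by
  induction t generalizing k with
  | zero => exact h k
  | succ t ih =>
    rw [Function.iterate_succ_apply']
    exact step_length A _ ih k

end Sim

/-- PT of the run of an automaton on an input string -/
theorem PT_run {κ S Q : Type} [DecidableEq κ] {K s q : ℕ} (eK : κ ≃ Fin K) (eS : S ≃ Fin s)
    (eQ : Q ≃ Fin q) (A : Auto κ S Q) (q₀ : Q) (k₀ k₁ : κ) (inp : Bool → S) (out : S → Bool)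
    (T : Polynomial ℕ) :
    PT (fun z : Raw => (⟨((A.step^[T.eval z.str.length] (q₀, Function.update (fun _ => []) k₀
      (z.str.map inp))).2 k₁).map out⟩ : Raw)) := by
  set init : List Bool → Q × (κ → List S) := fun z =>
    (q₀, Function.update (fun _ => []) k₀ (z.map inp)) with hinit
  have hz : PT (fun z : Raw => z.str) := PT.ofRaw PT.id'
  have hT : PT (fun z : Raw => T.eval z.str.length) := PT.poly T (PT.length hz)
  have hi : PT (fun z : Raw => conf eK eS eQ (init z.str)) := by
    have h1 : PT (fun z : Raw => ((eQ q₀ : ℕ), (List.range K).map (fun j =>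
        bif decide (j = (eK k₀ : ℕ)) then z.str.map (fun b => bif b then (eS (inp true) : ℕ) else
          (eS (inp false) : ℕ)) else []))) := by
      apply PT.pair (PT.const _)
      apply PT.map (PT.const _)
      apply PT.cond (PT.eq (PT.snd PT.id') (PT.const _))
      · apply PT.map (hz.comp (PT.fst PT.id'))
        exact PT.cond (PT.snd PT.id') (PT.const _) (PT.const _)
      · exact PT.const _
    refine h1.of_eq (fun z => ?_)
    unfold conf
    simp only [hinit]
    congr 1
    apply List.ext_getElem
    · simp
    · intro j hj hj'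
      simp only [List.length_map, List.length_finRange] at hj
      simp only [List.getElem_map, List.getElem_range, List.getElem_finRange, Fin.cast_mk]
      by_cases hjk : j = (eK k₀ : ℕ)
      · have h8 : eK.symm ⟨j, hj⟩ = k₀ := by
          rw [Equiv.symm_apply_eq]
          exact Fin.ext hjk
        rw [h8, Function.update_self]
        simp only [hjk, decide_true, cond_true, List.map_map]
        apply List.map_congr_left
        intro b _
        cases b <;> rfl
      · have h8 : eK.symm ⟨j, hj⟩ ≠ k₀ := by
          rw [Ne, Equiv.symm_apply_eq]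
          intro h
          exact hjk (congrArg Fin.val h)
        rw [Function.update_of_ne h8]
        simp [hjk]
  have hlen : ∀ (z : List Bool) (k : κ), ((init z).2 k).length ≤ z.length := by
    intro z k
    simp only [hinit]
    by_cases hk : k = k₀
    · subst hk
      simp
    · simp [Function.update_of_ne hk]
  obtain ⟨d, hd⟩ := hT.bound
  have hrun : PT (fun z : Raw => (stepN eK eS eQ A)^[T.eval z.str.length]
      (conf eK eS eQ (init z.str))) := by
    apply PT.iter (g := fun _ c => stepN eK eS eQ A c) hT hi
    · exact PT_stepN eK eS eQ A (PT.snd PT.id')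
    · refine ⟨fun n => 2 * q + 1 + K * (2 * ((n + (n + 2) ^ d) * (2 * s + 1)) + 1), ?_, ?_⟩
      · exact (PB.const (2 * q + 1)).add ((PB.const K).mul (((PB.const 2).mul
          ((PB.id.add ((PB.id.add (PB.const 2)).pow d)).mul (PB.const (2 * s + 1)))).add
            (PB.const 1)))
      · intro z k hk
        have h1 := iter_conf eK eS eQ A (init z.str) k
        rw [h1]
        have h2 := sz_conf eK eS eQ (A.step^[k] (init z.str))
          (fun k' => iter_length A (init z.str) (hlen z.str) k k')
        refine h2.trans ?_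
        have h3 := hd z
        rw [sz_nat] at h3
        have h4 : z.str.length = sz z := rfl
        have h5 : z.str.length + k ≤ sz z + (sz z + 2) ^ d := by omega
        have h6 := Nat.mul_le_mul_right (2 * s + 1) h5
        have h7 : 2 * ((z.str.length + k) * (2 * s + 1)) + 1 ≤
          2 * ((sz z + (sz z + 2) ^ d) * (2 * s + 1)) + 1 := by omega
        have h8 := Nat.mul_le_mul_left K h7
        simp only
        omega
  have hout : PT (fun z : Raw => (((stepN eK eS eQ A)^[T.eval z.str.length]
      (conf eK eS eQ (init z.str))).2.getD (eK k₁ : ℕ) []).map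
      (fun t => ((List.finRange s).map (fun i => out (eS.symm i))).getD t false)) := by
    apply PT.map (PT.getD (PT.const _) (PT.snd hrun) (PT.const _))
    exact PT.getD (PT.snd PT.id') (PT.const _) (PT.const _)
  refine (PT.toRaw hout).of_eq (fun z => ?_)
  rw [iter_conf]
  congr 1
  have h1 : (conf eK eS eQ (A.step^[T.eval z.str.length] (init z.str))).2.getD (eK k₁ : ℕ) [] =
      ((A.step^[T.eval z.str.length] (init z.str)).2 k₁).map (fun x => (eS x : ℕ)) := by
    simp only [conf]
    rw [getD_finRange]
    simp
  rw [h1, List.map_map]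
  apply List.map_congr_left
  intro x _
  simp only [Function.comp]
  rw [getD_finRange]
  simp

/-- every function computed by a `TM2` machine in polynomial time is polynomial-time for `CT` -/
theorem CT_of_tm2 {α β : Type} (ea : α → List Bool) (eb : β → List Bool) (f : α → β)
    (H : TM2ComputableInPolyTime ea eb f) : CT ea (fun a => eb (f a)) := by
  classical
  have hK : Fintype H.tm.K := H.tm.kFin
  set out : Flat.S H.tm → Bool := fun c =>
    match Flat.rd H.tm.k₁ c with
    | some a => H.outputAlphabet a
    | none => false with hout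
  have h1 := PT_run (Fintype.equivFin H.tm.K) (Fintype.equivFin (Flat.S H.tm))
    (Fintype.equivFin (Flat.Q H.tm)) (Flat.auto H.tm)
    ⟨Flat.lab (some H.tm.main), H.tm.initialState⟩ H.tm.k₀ H.tm.k₁
    (fun b => .inl (H.inputAlphabet.invFun b)) out (Polynomial.C (Flat.D H.tm) * H.time)
  have h2 := CT.reindex (fun a => (⟨ea a⟩ : Raw)) h1
  refine h2.congr (fun _ => rfl) (fun a => ?_)
  obtain ⟨⟨n, hn⟩, hle⟩ := H.outputsFun a
  have ht : Flat.D H.tm * n ≤ (Polynomial.C (Flat.D H.tm) * H.time).eval (ea a).length := by
    simp only [Polynomial.eval_mul, Polynomial.eval_C]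
    exact Nat.mul_le_mul_left _ hle
  obtain ⟨G', hG', e⟩ := Flat.sim_halt n _ _ _ (Flat.rel_init _) hn rfl _ ht
  have e' : (Flat.auto H.tm).step^[(Polynomial.C (Flat.D H.tm) * H.time).eval (ea a).length]
      (⟨Flat.lab (some H.tm.main), H.tm.initialState⟩,
      Function.update (fun _ => []) H.tm.k₀ ((ea a).map
        (fun b => .inl (H.inputAlphabet.invFun b)))) = ((Flat.lab none, H.tm.initialState), G') := by
    rw [List.map_map] at e
    exact e
  have h3 := hG' H.tm.k₁
  have h4 : (haltList H.tm (List.map H.outputAlphabet.invFun (eb (f a)))).stk H.tm.k₁ =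
      List.map H.outputAlphabet.invFun (eb (f a)) := by
    simp [haltList]
  rw [h4] at h3
  show eb (f a) = List.map out (((Flat.auto H.tm).step^[_] _).2 H.tm.k₁)
  rw [e']
  simp only
  have h5 : List.map out (G' H.tm.k₁) = ((G' H.tm.k₁).map (Flat.rd H.tm.k₁)).map
      (fun o => match o with
        | some a => H.outputAlphabet a
        | none => false) := by
    rw [List.map_map]
    rfl
  rw [h5, h3, List.map_map, List.map_map]
  have h6 : ∀ l : List Bool, l = List.map (((fun o : Option (H.tm.Γ H.tm.k₁) => match o with
        | some a => H.outputAlphabet a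
        | none => false) ∘ some) ∘ H.outputAlphabet.invFun) l := by
    intro l
    conv_lhs => rw [← List.map_id l]
    apply List.map_congr_left
    intro b _
    simp
  exact h6 _

/-- a function between encoded types that is polynomial-time for `CT` is so for `TM2` -/
theorem tm2_of_CT {α β : Type} [N487b59b3 α] [N487b59b3 β] (f : α → β)
    (hf : CT (fun a : α => bitEncode a) (fun a => bitEncode (f a))) : IsPolyTime f := by
  obtain ⟨K, i1, i2, i, o, c, d, h⟩ := hf
  refine ⟨{ tm := machine c i o, inputAlphabet := Equiv.refl Bool,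
            outputAlphabet := Equiv.refl Bool, time := (Polynomial.X + 2) ^ d + 1,
            outputsFun := fun a => ?_ }⟩
  refine ⟨⟨Classical.choose (h a) + 1, ?_⟩, ?_⟩
  · have h1 := (Classical.choose_spec (h a)).2.outputs
    have e1 : List.map (Equiv.refl Bool).invFun (bitEncode a) = bitEncode a := List.map_id _
    have e2 : List.map (Equiv.refl Bool).invFun (bitEncode (f a)) = bitEncode (f a) :=
      List.map_id _
    exact (congrArg (fun s => (flip bind (FinTM2.step (machine c i o)))^[Classical.choose (h a) + 1]
      (some (initList (machine c i o) s))) e1).trans (h1.trans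
        (congrArg (fun s => some (haltList (machine c i o) s)) e2.symm))
  · have h2 := (Classical.choose_spec (h a)).1
    simp only [Polynomial.eval_add, Polynomial.eval_pow, Polynomial.eval_X, Polynomial.eval_ofNat,
      Polynomial.eval_one]
    exact Nat.add_le_add_right h2 1

/-- the two notions agree -/
theorem isPolyTime_iff_CT {α β : Type} [N487b59b3 α] [N487b59b3 β] (f : α → β) :
    IsPolyTime f ↔ CT (fun a : α => bitEncode a) (fun a => bitEncode (f a)) :=
  ⟨fun ⟨H⟩ => CT_of_tm2 _ _ f H, tm2_of_CT f⟩

/-- composition of polynomial-time functions -/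
theorem isPolyTime_comp {α β γ : Type} [N487b59b3 α] [N487b59b3 β] [N487b59b3 γ]
    {g : β → γ} {f : α → β} (hg : IsPolyTime g) (hf : IsPolyTime f) :
    IsPolyTime (fun a => g (f a)) := by
  rw [isPolyTime_iff_CT] at hg hf ⊢
  exact hf.comp (CT.reindex f hg)

/-- `P` is closed under polynomial-time many-one reductions -/
theorem mem_P_of_reducible {A B : DecisionProblem} (h : ManyOneReducible A B) (hB : B ∈ P) :
    A ∈ P := by
  obtain ⟨f, hf, hAB⟩ := h
  have h1 : IsPolyTime (fun x => B (f x)) := isPolyTime_comp hB hf
  have h2 : A = fun x => B (f x) := funext hAB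
  show IsPolyTime A
  rw [h2]
  exact h1

end Pool.Agent.OfTM2
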