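import Pool.Agent.Lib.MP_1ce42f_lc.Poly
import Pool.Agent.Lib.MP_1ce42f_lc.OfTM2

/-!
# NP-hardness of `1 | r_j, p_j ≤ c | Σ U_j` for every constant `c ≥ 20`
-/

open N68a2faeb N793a5b8e N487b59b3

namespace Pool.Agent.LateJobs

open Pool.Agent.MSR Pool.Agent.MSR.En

/-- the code of a natural number written in binary -/
abbrev bin (a : ℕ) : Raw := ⟨Computability.encodeNat a⟩

/-- a job as nested raw strings -/
def conv (r p d : ℕ) : Raw × Raw × Raw × Raw := (bin r, bin p, bin d, ⟨[]⟩)

theorem enc_conv (r p d : ℕ) : enc (conv r p d) = bitEncode ((r, p, (d : ℤ)) : ℕ × ℕ × ℤ) := by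
  have e2 : bitEncode (d : ℤ) = bitEncode ((d : ℤ).toNat, (-(d : ℤ)).toNat) := rfl
  have e3 : (-(d : ℤ)).toNat = 0 := by omega
  rw [bitEncode_pair, bitEncode_pair, e2, e3, Int.toNat_natCast, bitEncode_pair]
  rfl

/-- a job with unit weight as nested raw strings -/
def convW (r p d : ℕ) : Raw × Raw × (Raw × Raw) × Raw := (bin r, bin p, (bin d, ⟨[]⟩), bin 1)

theorem enc_convW (r p d : ℕ) :
    enc (convW r p d) = bitEncode ((r, p, (d : ℤ), 1) : ℕ × ℕ × ℤ × ℕ) := by
  have e2 : bitEncode (d : ℤ) = bitEncode ((d : ℤ).toNat, (-(d : ℤ)).toNat) := rfl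
  have e3 : (-(d : ℤ)).toNat = 0 := by omega
  have e4 : bitEncode (1 : ℕ) = enc (bin 1) := rfl
  rw [bitEncode_pair, bitEncode_pair, bitEncode_pair, e2, e3, Int.toNat_natCast, bitEncode_pair]
  simp only
  rw [e4]
  rfl

theorem enc_map_eq {α β γ : Type} [En β] [N487b59b3 γ] (L : List α) (f : α → β) (g : α → γ)
    (h : ∀ a, enc (f a) = bitEncode (g a)) : enc (L.map f) = bitEncode (L.map g) := by
  show ((List.map enc (L.map f)).map delimit).flatten =
    ((List.map bitEncode (L.map g)).map delimit).flatten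
  have h1 : List.map enc (L.map f) = List.map bitEncode (L.map g) := by
    rw [List.map_map, List.map_map]
    apply List.map_congr_left
    intro a _
    exact h a
  rw [h1]

/-- some edge has at most one relevant element -/
def small (n : ℕ) (H : List (List ℕ)) : Bool := H.any (fun e => ltb (good n e).length 2)

theorem small_iff (n : ℕ) (H : List (List ℕ)) :
    small n H = true ↔ ∃ e ∈ H, ¬ 2 ≤ (good n e).length := by
  unfold small ltb
  simp only [List.any_eq_true, decide_eq_true_iff, not_le]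

/-- the number of late jobs allowed -/
def bound (n : ℕ) (H : List (List ℕ)) : ℕ := (labels n H).length - 7 * (n * H.length)

theorem bound_eq {n : ℕ} {H : List (List ℕ)} (hm : 0 < H.length)
    (h2 : ∀ e ∈ H, 2 ≤ (good n e).length) : bound n H = kk n H := by
  have h := length_labels n H hm (fun s hs => h2 _ (getD_mem hs))
  unfold bound
  omega

/-- the instance of the unweighted problem as nested raw strings -/
def out (n : ℕ) (H : List (List ℕ)) : List (Raw × Raw × Raw × Raw) × Raw :=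
  bif small n H then ([conv 0 1 0], bin 0)
  else ((labels n H).map (fun l => conv (jr n l) (plen l.1) (jd n H.length l)), bin (bound n H))

/-- the instance of the weighted problem as nested raw strings -/
def outW (n : ℕ) (H : List (List ℕ)) : List (Raw × Raw × (Raw × Raw) × Raw) × Raw :=
  bif small n H then ([convW 0 1 0], bin 0)
  else ((labels n H).map (fun l => convW (jr n l) (plen l.1) (jd n H.length l)), bin (bound n H))

section PT

variable {α : Type} [En α]

theorem PT.bin {f : α → ℕ} (hf : PT f) : PT (fun a => bin (f a)) := PT.toRaw (PT.encodeNat hf)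

theorem PT.conv {r p d : α → ℕ} (hr : PT r) (hp : PT p) (hd : PT d) :
    PT (fun a => conv (r a) (p a) (d a)) :=
  PT.pair (PT.bin hr) (PT.pair (PT.bin hp) (PT.pair (PT.bin hd) (PT.const _)))

theorem PT.convW {r p d : α → ℕ} (hr : PT r) (hp : PT p) (hd : PT d) :
    PT (fun a => convW (r a) (p a) (d a)) :=
  PT.pair (PT.bin hr) (PT.pair (PT.bin hp) (PT.pair (PT.pair (PT.bin hd) (PT.const _))
    (PT.const _)))

theorem PT.small {n : α → ℕ} {H : α → List (List ℕ)} (hn : PT n) (hH : PT H) :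
    PT (fun a => small (n a) (H a)) := by
  unfold LateJobs.small
  apply PT.any hH
  exact PT.ltb (PT.length (PT.good (hn.comp (PT.fst PT.id')) (PT.snd PT.id'))) (PT.const 2)

theorem PT.bound {n : α → ℕ} {H : α → List (List ℕ)} (hn : PT n) (hH : PT H) :
    PT (fun a => bound (n a) (H a)) :=
  PT.sub (PT.length (PT.labels hn hH)) (PT.mul (PT.const 7) (PT.mul hn (PT.length hH)))

theorem PT.out {n : α → ℕ} {H : α → List (List ℕ)} (hn : PT n) (hH : PT H) :
    PT (fun a => out (n a) (H a)) := by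
  have hn1 : PT (fun p : α × Lbl => n p.1) := hn.comp (PT.fst PT.id')
  have hm1 : PT (fun p : α × Lbl => (H p.1).length) := PT.length (hH.comp (PT.fst PT.id'))
  have hl : PT (fun p : α × Lbl => p.2) := PT.snd PT.id'
  unfold LateJobs.out
  apply PT.cond (PT.small hn hH) (PT.const _)
  refine PT.pair (PT.map (PT.labels hn hH) ?_) (PT.bin (PT.bound hn hH))
  exact PT.conv (PT.jr hn1 hl) (PT.plen (PT.fst hl)) (PT.jd hn1 hm1 hl)

theorem PT.outW {n : α → ℕ} {H : α → List (List ℕ)} (hn : PT n) (hH : PT H) :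
    PT (fun a => outW (n a) (H a)) := by
  have hn1 : PT (fun p : α × Lbl => n p.1) := hn.comp (PT.fst PT.id')
  have hm1 : PT (fun p : α × Lbl => (H p.1).length) := PT.length (hH.comp (PT.fst PT.id'))
  have hl : PT (fun p : α × Lbl => p.2) := PT.snd PT.id'
  unfold LateJobs.outW
  apply PT.cond (PT.small hn hH) (PT.const _)
  refine PT.pair (PT.map (PT.labels hn hH) ?_) (PT.bin (PT.bound hn hH))
  exact PT.convW (PT.jr hn1 hl) (PT.plen (PT.fst hl)) (PT.jd hn1 hm1 hl)

end PT

theorem enc_out_small {n : ℕ} {H : List (List ℕ)} (h : small n H = true) :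
    enc (out n H) = bitEncode (([(0, 1, 0)] : List (ℕ × ℕ × ℤ)), 0) := by
  unfold out
  rw [h, cond_true, enc_pair, bitEncode_pair]
  have h1 := enc_map_eq [((0, 1, 0) : ℕ × ℕ × ℕ)] (fun a => conv a.1 a.2.1 a.2.2)
    (fun a => ((a.1, a.2.1, (a.2.2 : ℤ)) : ℕ × ℕ × ℤ)) (fun a => enc_conv _ _ _)
  simp only [List.map_cons, List.map_nil, Nat.cast_zero] at h1
  rw [h1]
  rfl

theorem enc_out_large {n : ℕ} {H : List (List ℕ)} (h : small n H = false) :
    enc (out n H) = bitEncode (jobs n H, bound n H) := by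
  unfold out
  rw [h, cond_false, enc_pair, bitEncode_pair]
  have h1 := enc_map_eq (labels n H) (fun l => conv (jr n l) (plen l.1) (jd n H.length l))
    (fun l => ((jr n l, plen l.1, ((jd n H.length l : ℕ) : ℤ)) : ℕ × ℕ × ℤ))
    (fun a => enc_conv _ _ _)
  rw [h1]
  rfl

theorem enc_outW_small {n : ℕ} {H : List (List ℕ)} (h : small n H = true) :
    enc (outW n H) = bitEncode (([(0, 1, 0, 1)] : List (ℕ × ℕ × ℤ × ℕ)), 0) := by
  unfold outW
  rw [h, cond_true, enc_pair, bitEncode_pair]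
  have h1 := enc_map_eq [((0, 1, 0) : ℕ × ℕ × ℕ)] (fun a => convW a.1 a.2.1 a.2.2)
    (fun a => ((a.1, a.2.1, (a.2.2 : ℤ), 1) : ℕ × ℕ × ℤ × ℕ)) (fun a => enc_convW _ _ _)
  simp only [List.map_cons, List.map_nil, Nat.cast_zero] at h1
  rw [h1]
  rfl

theorem enc_outW_large {n : ℕ} {H : List (List ℕ)} (h : small n H = false) :
    enc (outW n H) = bitEncode (jobsW n H, bound n H) := by
  unfold outW
  rw [h, cond_false, enc_pair, bitEncode_pair]
  have h1 := enc_map_eq (labels n H) (fun l => convW (jr n l) (plen l.1) (jd n H.length l))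
    (fun l => ((jr n l, plen l.1, ((jd n H.length l : ℕ) : ℤ), 1) : ℕ × ℕ × ℤ × ℕ))
    (fun a => enc_convW _ _ _)
  rw [h1]
  rfl

theorem lateJobs_out {c : ℕ} (hc : 20 ≤ c) {n : ℕ} {H : List (List ℕ)} (hn : 0 < n) (hm : 0 < H.length)
    (hH : ∀ e ∈ H, ∀ u ∈ e, u < n) : lateJobs c (enc (out n H)) = true ↔ MSR.NAE H := by
  by_cases h : small n H = true
  · rw [enc_out_small h]
    exact ⟨fun h1 => absurd h1 (lateJobs_no c), fun h1 => absurd h1 (nae_no hH ((small_iff n H).1 h))⟩
  · have h2 : ∀ e ∈ H, 2 ≤ (good n e).length := by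
      intro e he
      by_contra h3
      exact h ((small_iff n H).2 ⟨e, he, h3⟩)
    rw [enc_out_large (Bool.eq_false_iff.2 h), bound_eq hm h2]
    exact lateJobs_jobs c hc n hn H hm hH h2

theorem weightedLateJobs_out {c : ℕ} (hc : 20 ≤ c) {n : ℕ} {H : List (List ℕ)} (hn : 0 < n) (hm : 0 < H.length)
    (hH : ∀ e ∈ H, ∀ u ∈ e, u < n) : weightedLateJobs c (enc (outW n H)) = true ↔ MSR.NAE H := by
  by_cases h : small n H = true
  · rw [enc_outW_small h]
    exact ⟨fun h1 => absurd h1 (weightedLateJobs_no c),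
      fun h1 => absurd h1 (nae_no hH ((small_iff n H).1 h))⟩
  · have h2 : ∀ e ∈ H, 2 ≤ (good n e).length := by
      intro e he
      by_contra h3
      exact h ((small_iff n H).2 ⟨e, he, h3⟩)
    rw [enc_outW_large (Bool.eq_false_iff.2 h), bound_eq hm h2]
    exact weightedLateJobs_jobs c hc n hn H hm hH h2

theorem start_lt {n : ℕ} (hn : 0 < n) {H : List (List ℕ)} (hm : 0 < H.length) {l : Lbl}
    (hl : l ∈ labels n H) (h0 : l.1 ≠ 0) : wL n l < 2 * n * H.length := by
  obtain ⟨k, s, q⟩ := l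
  rw [mem_labels] at hl
  have key : ∀ s, s < H.length → 2 * n * s + 2 * n ≤ 2 * n * H.length := by
    intro s hs
    calc 2 * n * s + 2 * n = 2 * n * (s + 1) := by ring
      _ ≤ 2 * n * H.length := Nat.mul_le_mul_left _ hs
  rcases hl with ⟨rfl, rfl, h⟩ | ⟨rfl | rfl, h1, h2⟩ | ⟨rfl | rfl, h1, h2⟩ | ⟨rfl | rfl, rfl, h2⟩ |
      ⟨rfl | rfl, h1, h2⟩ | ⟨rfl | rfl, h1, rfl⟩ | ⟨rfl, h1, h2⟩
  · exact absurd rfl h0
  · have := key s h1; simp only [wL]; norm_num; omega
  · have := key s h1; simp only [wL]; norm_num; omega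
  · have := key s (by omega); simp only [wL]; norm_num; omega
  · have := key s (by omega); simp only [wL]; norm_num; omega
  · have := key 0 hm; simp only [wL]; norm_num; omega
  · have := key 0 hm; simp only [wL]; norm_num; omega
  · rw [mem_bad] at h2
    have := key s h1; simp only [wL]; norm_num; omega
  · rw [mem_bad] at h2
    have := key s h1; simp only [wL]; norm_num; omega
  · have := key s h1; simp only [wL]; norm_num; omega
  · have := key s h1; simp only [wL]; norm_num; omega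
  · have := key s h1; simp only [wL]; norm_num; omega

theorem dates_le {n : ℕ} (hn : 0 < n) {H : List (List ℕ)} (hm : 0 < H.length)
    (h2 : ∀ e ∈ H, 2 ≤ (good n e).length) {l : Lbl} (hl : l ∈ labels n H) :
    jr n l ≤ 11 * (labels n H).length ∧ jd n H.length l ≤ 11 * (labels n H).length := by
  have h := length_labels n H hm (fun s hs => h2 _ (getD_mem hs))
  have e : 2 * n * H.length = 2 * (n * H.length) := by ring
  by_cases h0 : l.1 = 0
  · obtain ⟨k, s, q⟩ := l
    have h0' : k = 0 := h0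
    subst h0'
    rw [mem_labels] at hl
    have h3 : q < 2 * n * H.length := by
      rcases hl with h | h | h | h | h | h | h
      · exact h.2.2
      all_goals omega
    simp only [jr, jd, if_true]
    omega
  · have h3 := start_lt hn hm hl h0
    have h4 := window_lt hn hm hl h0
    simp only [jr, jd, if_neg h0]
    omega

/-- **`1 | r_j, p_j ≤ c | Σ U_j` is strongly NP-hard for every constant `c ≥ 20`.** -/
theorem lateJobs_hard (c : ℕ) (hc : 20 ≤ c) (L : DecisionProblem) (hL : L ∈ NP) :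
    ∃ f : List Bool → List Bool, IsPolyTime f ∧ ∀ x, L x = lateJobs c (f x) ∧
      ∃ (J : List (ℕ × ℕ × ℤ)) (k : ℕ), f x = bitEncode (J, k) ∧
        ∀ j ∈ J, (1 ≤ j.2.1 ∧ j.2.1 ≤ 20) ∧ j.1 ≤ 11 * J.length ∧ 0 ≤ j.2.2 ∧ j.2.2 ≤ 11 * J.length := by
  obtain ⟨N, H, hN, hH, hLx⟩ := np_nae L hL
  refine ⟨fun x => enc (out (N x) (H x)), isPolyTime_of_PT _ (PT.encString (PT.out hN hH)),
    fun x => ?_⟩
  obtain ⟨h1, h2, h3, j, h4, _⟩ := hLx x
  have hm : 0 < (H x).length := by omega
  refine ⟨?_, ?_⟩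
  · rw [Bool.eq_iff_iff, h1]
    exact (lateJobs_out hc h2 hm (fun e he => (h3 e he).2)).symm
  · by_cases h : small (N x) (H x) = true
    · refine ⟨[(0, 1, 0)], 0, enc_out_small h, ?_⟩
      intro j hj
      rw [List.mem_singleton] at hj
      subst hj
      simp
    · have h5 : ∀ e ∈ H x, 2 ≤ (good (N x) e).length := by
        intro e he
        by_contra h3
        exact h ((small_iff (N x) (H x)).2 ⟨e, he, h3⟩)
      refine ⟨jobs (N x) (H x), bound (N x) (H x), enc_out_large (Bool.eq_false_iff.2 h), ?_⟩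
      intro j hj
      simp only [jobs, List.mem_map] at hj
      obtain ⟨l, hl, rfl⟩ := hj
      have h6 := dates_le h2 hm h5 hl
      simp only [jobs, List.length_map]
      refine ⟨plen_bounds l, h6.1, Int.natCast_nonneg _, ?_⟩
      exact_mod_cast h6.2

/-- **`1 | r_j, p_j ≤ c | Σ w_j U_j` is strongly NP-hard for every constant `c ≥ 20`, already with
unit weights.** -/
theorem weightedLateJobs_hard (c : ℕ) (hc : 20 ≤ c) (L : DecisionProblem) (hL : L ∈ NP) :
    ∃ f : List Bool → List Bool, IsPolyTime f ∧ ∀ x, L x = weightedLateJobs c (f x) ∧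
      ∃ (J : List (ℕ × ℕ × ℤ × ℕ)) (k : ℕ), f x = bitEncode (J, k) ∧
        ∀ j ∈ J, (1 ≤ j.2.1 ∧ j.2.1 ≤ 20) ∧ j.1 ≤ 11 * J.length ∧ 0 ≤ j.2.2.1 ∧
          j.2.2.1 ≤ 11 * J.length ∧ j.2.2.2 = 1 := by
  obtain ⟨N, H, hN, hH, hLx⟩ := np_nae L hL
  refine ⟨fun x => enc (outW (N x) (H x)), isPolyTime_of_PT _ (PT.encString (PT.outW hN hH)),
    fun x => ?_⟩
  obtain ⟨h1, h2, h3, j, h4, _⟩ := hLx x
  have hm : 0 < (H x).length := by omega
  refine ⟨?_, ?_⟩
  · rw [Bool.eq_iff_iff, h1]
    exact (weightedLateJobs_out hc h2 hm (fun e he => (h3 e he).2)).symm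
  · by_cases h : small (N x) (H x) = true
    · refine ⟨[(0, 1, 0, 1)], 0, enc_outW_small h, ?_⟩
      intro j hj
      rw [List.mem_singleton] at hj
      subst hj
      simp
    · have h5 : ∀ e ∈ H x, 2 ≤ (good (N x) e).length := by
        intro e he
        by_contra h3
        exact h ((small_iff (N x) (H x)).2 ⟨e, he, h3⟩)
      refine ⟨jobsW (N x) (H x), bound (N x) (H x), enc_outW_large (Bool.eq_false_iff.2 h), ?_⟩
      intro j hj
      simp only [jobsW, List.mem_map] at hj
      obtain ⟨l, hl, rfl⟩ := hj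
      have h6 := dates_le h2 hm h5 hl
      simp only [jobsW, List.length_map]
      refine ⟨plen_bounds l, h6.1, Int.natCast_nonneg _, ?_, trivial⟩
      exact_mod_cast h6.2

/-- a polynomial-time algorithm for `1 | r_j, p_j ≤ c | Σ U_j` would give `P = NP` -/
theorem np_subset_p_of_lateJobs (c : ℕ) (hc : 20 ≤ c) (h : lateJobs c ∈ P) : NP ⊆ P := by
  intro L hL
  obtain ⟨f, hf, hfx⟩ := lateJobs_hard c hc L hL
  exact OfTM2.mem_P_of_reducible ⟨f, hf, fun x => (hfx x).1⟩ h

end Pool.Agent.LateJobs
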