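import Pool.Agent.Lib.MP_1ce42f_lc.Backward

/-!
# From a not-all-equal colouring to a schedule
-/

namespace Pool.Agent.LateJobs

/-- gap of a variable in block `2 s` (front) or `2 s + 1` (back) -/
def gpp (n : ℕ) (fr : Bool) (s i : ℕ) : ℕ := if fr then 2 * n * s + i else 2 * n * s + (2 * n - 1 - i)

theorem gpp_inj {n : ℕ} {fr fr' : Bool} {s s' i i' : ℕ} (hi : i < n) (hi' : i' < n)
    (h : gpp n fr s i = gpp n fr' s' i') : fr = fr' ∧ s = s' ∧ i = i' := by
  cases fr <;> cases fr' <;> simp only [gpp, if_true, if_false, Bool.false_eq_true] at h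
  · obtain ⟨h1, h2⟩ := block_unique (by omega) (by omega) h
    exact ⟨rfl, h1, by omega⟩
  · obtain ⟨h1, h2⟩ := block_unique (by omega) (by omega) h
    omega
  · obtain ⟨h1, h2⟩ := block_unique (by omega) (by omega) h
    omega
  · obtain ⟨h1, h2⟩ := block_unique (by omega) (by omega) h
    exact ⟨rfl, h1, h2⟩

/-- offset inside a gap -/
def off (k : ℕ) : ℕ :=
  if k = 1 then 0 else if k = 2 then 0 else if k = 3 then 6 else if k = 5 then 6
  else if k = 4 then 16 else if k = 6 then 16 else 15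

/-- the type of gap used by a kind: `true` for the kinds with lengths 6, 9, 20 -/
def tyk (k : ℕ) : Bool := !(decide (k = 2) || decide (k = 4) || decide (k = 6))

section

variable (n m : ℕ) (ξ : ℕ → Bool) (a b : ℕ → ℕ) (rest : ℕ → List ℕ)

/-- the variable whose gap is used by a job -/
def vr (l : Lbl) : ℕ :=
  if l.1 = 3 ∨ l.1 = 4 then n - 1 - l.2.2
  else if l.1 = 8 then a l.2.1
  else if l.1 = 9 then b l.2.1
  else if l.1 = 10 then (rest l.2.1).getD l.2.2 0
  else l.2.2

/-- whether the front gap of the variable is used -/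
def fr (l : Lbl) : Bool := if tyk l.1 then ξ (vr n a b rest l) else !ξ (vr n a b rest l)

/-- the block pair of the gap used -/
def blk (l : Lbl) : ℕ :=
  if l.1 = 3 ∨ l.1 = 4 then (if fr n ξ a b rest l then l.2.1 + 1 else l.2.1)
  else if l.1 = 5 ∨ l.1 = 6 then (if fr n ξ a b rest l then 0 else m - 1)
  else l.2.1

/-- late jobs -/
def isLate (l : Lbl) : Prop := (l.1 = 7 ∧ ξ l.2.2 = false) ∨ (l.1 = 11 ∧ ξ l.2.2 = true)

/-- the gap used -/
def gapOf (l : Lbl) : ℕ := gpp n (fr n ξ a b rest l) (blk n m ξ a b rest l) (vr n a b rest l)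

open Classical in
/-- start times -/
noncomputable def Tn (l : Lbl) : ℕ :=
  if l.1 = 0 then 36 * l.2.2 + 35
  else if isLate ξ l then 36 * (2 * n * m) + 20 * (2 * n * l.2.1 + l.2.2)
  else 36 * gapOf n m ξ a b rest l + off l.1

end

/-- the data of a not-all-equal colouring -/
structure Col (n : ℕ) (H : List (List ℕ)) (ξ : ℕ → Bool) (a b : ℕ → ℕ) (rest : ℕ → List ℕ) :
    Prop where
  npos : 0 < n
  mpos : 0 < H.length
  ha : ∀ s < H.length, a s ∈ good n (H.getD s []) ∧ ξ (a s) = true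
  hb : ∀ s < H.length, b s ∈ good n (H.getD s []) ∧ ξ (b s) = false
  nodup : ∀ s < H.length, (rest s).Nodup
  sub : ∀ s < H.length, ∀ i ∈ rest s, i ∈ good n (H.getD s []) ∧ i ≠ a s ∧ i ≠ b s
  len : ∀ s < H.length, (rest s).length = (good n (H.getD s [])).length - 2

variable {n : ℕ} {H : List (List ℕ)} {ξ : ℕ → Bool} {a b : ℕ → ℕ} {rest : ℕ → List ℕ}

theorem Col.rest_mem (C : Col n H ξ a b rest) {s k : ℕ} (hs : s < H.length)
    (hk : k < (good n (H.getD s [])).length - 2) : (rest s).getD k 0 ∈ rest s := by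
  rw [List.getD_eq_getElem _ _ (by rw [C.len s hs]; exact hk)]
  exact List.getElem_mem _

theorem Col.vr_lt (C : Col n H ξ a b rest) {l : Lbl} (hl : l ∈ labels n H) (h0 : l.1 ≠ 0) :
    vr n a b rest l < n := by
  have hn := C.npos
  obtain ⟨k, s, q⟩ := l
  rw [mem_labels] at hl
  rcases hl with ⟨rfl, rfl, h⟩ | ⟨rfl | rfl, h1, h2⟩ | ⟨rfl | rfl, h1, h2⟩ | ⟨rfl | rfl, rfl, h2⟩ |
      ⟨rfl | rfl, h1, h2⟩ | ⟨rfl | rfl, h1, rfl⟩ | ⟨rfl, h1, h2⟩
  · exact absurd rfl h0
  · simpa [vr] using h2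
  · simpa [vr] using h2
  · simp only [vr]; norm_num; omega
  · simp only [vr]; norm_num; omega
  · simpa [vr] using h2
  · simpa [vr] using h2
  · simpa [vr] using (mem_bad.1 h2).1
  · simpa [vr] using (mem_bad.1 h2).1
  · simpa [vr] using (mem_good.1 (C.ha s h1).1).1
  · simpa [vr] using (mem_good.1 (C.hb s h1).1).1
  · have := (C.sub s h1 _ (C.rest_mem h1 h2)).1
    have h3 := (mem_good.1 this).1
    simp only [vr]; norm_num
    simpa using h3

/-- the gap used by a job on time is in its window -/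
theorem Col.window (C : Col n H ξ a b rest) {l : Lbl} (hl : l ∈ labels n H) (h0 : l.1 ≠ 0)
    (hlate : ¬ isLate ξ l) : wL n l ≤ gapOf n H.length ξ a b rest l ∧
      gapOf n H.length ξ a b rest l ≤ wR n H.length l := by
  have hn := C.npos
  have hm := C.mpos
  have key : ∀ s, s < H.length → 2 * n * s + 2 * n ≤ 2 * n * H.length := by
    intro s hs
    calc 2 * n * s + 2 * n = 2 * n * (s + 1) := by ring
      _ ≤ 2 * n * H.length := Nat.mul_le_mul_left _ hs
  have k1 : 2 * n * (H.length - 1) + 2 * n = 2 * n * H.length := by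
    obtain ⟨m, hm'⟩ : ∃ m, H.length = m + 1 := ⟨H.length - 1, by omega⟩
    rw [hm']
    simp only [Nat.add_sub_cancel]
    ring
  have hv := C.vr_lt hl h0
  obtain ⟨k, s, q⟩ := l
  have e1 : 2 * n * (s + 1) = 2 * n * s + 2 * n := by ring
  rw [mem_labels] at hl
  rcases hl with ⟨rfl, rfl, h⟩ | ⟨rfl | rfl, h1, h2⟩ | ⟨rfl | rfl, h1, h2⟩ | ⟨rfl | rfl, rfl, h2⟩ |
      ⟨rfl | rfl, h1, h2⟩ | ⟨rfl | rfl, h1, rfl⟩ | ⟨rfl, h1, h2⟩
  · exact absurd rfl h0
  · simp only [gapOf, blk, fr, vr, wL, wR, gpp, tyk]; norm_num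
    cases ξ q <;> simp <;> omega
  · simp only [gapOf, blk, fr, vr, wL, wR, gpp, tyk]; norm_num
    cases ξ q <;> simp <;> omega
  · simp only [gapOf, blk, fr, vr, wL, wR, gpp, tyk]; norm_num
    cases ξ (n - 1 - q) <;> simp <;> omega
  · simp only [gapOf, blk, fr, vr, wL, wR, gpp, tyk]; norm_num
    cases ξ (n - 1 - q) <;> simp <;> omega
  · have := key 0 hm
    simp only [gapOf, blk, fr, vr, wL, wR, gpp, tyk]; norm_num
    cases ξ q <;> simp <;> omega
  · have := key 0 hm
    simp only [gapOf, blk, fr, vr, wL, wR, gpp, tyk]; norm_num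
    cases ξ q <;> simp <;> omega
  · have h3 : ξ q = true := by
      by_contra h
      exact hlate (Or.inl ⟨rfl, by simpa using h⟩)
    simp [gapOf, blk, fr, vr, wL, wR, gpp, tyk, h3]
  · have h3 : ξ q = false := by
      by_contra h
      exact hlate (Or.inr ⟨rfl, by simpa using h⟩)
    simp [gapOf, blk, fr, vr, wL, wR, gpp, tyk, h3]
  · have h3 := (C.ha s h1).2
    have h4 := (mem_good.1 (C.ha s h1).1).1
    simp [gapOf, blk, fr, vr, wL, wR, gpp, tyk, h3]
    omega
  · have h3 := (C.hb s h1).2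
    have h4 := (mem_good.1 (C.hb s h1).1).1
    simp [gapOf, blk, fr, vr, wL, wR, gpp, tyk, h3]
    omega
  · simp only [gapOf, blk, fr, vr, wL, wR, gpp, tyk] at hv ⊢
    norm_num at hv ⊢
    split_ifs <;> constructor <;> omega

theorem off_add_le (k : ℕ) (hk : k ≠ 0) (hk' : k ≤ 11) : off k + plen k ≤ 35 := by
  interval_cases k <;> simp_all [off, plen]

theorem kind_le {l : Lbl} (hl : l ∈ labels n H) : l.1 ≤ 11 := by
  obtain ⟨k, s, q⟩ := l
  rw [mem_labels] at hl
  simp only
  omega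

/-- two kinds of the same type and different lengths use different parts of the gap -/
theorem off_disj (k k' : ℕ) (hk : k ≠ 0) (hk' : k' ≠ 0) (h1 : k ≤ 11) (h2 : k' ≤ 11)
    (ht : tyk k = tyk k') (hp : plen k ≠ plen k') :
    off k + plen k ≤ off k' ∨ off k' + plen k' ≤ off k := by
  interval_cases k <;> interval_cases k' <;> simp_all [off, plen, tyk]

theorem Col.injC (C : Col n H ξ a b rest) {k k' s q q' : ℕ} (hl : (k, s, q) ∈ labels n H)
    (hl' : (k', s, q') ∈ labels n H) (h0 : 7 ≤ k) (h0' : 7 ≤ k')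
    (hlate : ¬ isLate ξ (k, s, q)) (hlate' : ¬ isLate ξ (k', s, q'))
    (hv : vr n a b rest (k, s, q) = vr n a b rest (k', s, q')) : k = k' ∧ q = q' := by
  rw [mem_labels] at hl hl'
  have hl : (k = 7 ∧ s < H.length ∧ q ∈ bad n (H.getD s [])) ∨
      (k = 11 ∧ s < H.length ∧ q ∈ bad n (H.getD s [])) ∨ (k = 8 ∧ s < H.length ∧ q = 0) ∨
      (k = 9 ∧ s < H.length ∧ q = 0) ∨
      (k = 10 ∧ s < H.length ∧ q < (good n (H.getD s [])).length - 2) := by
    rcases hl with ⟨h, _⟩ | ⟨h | h, _⟩ | ⟨h | h, _⟩ | ⟨h | h, _⟩ | ⟨h | h, h1⟩ | ⟨h | h, h1⟩ | h1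
    any_goals (exfalso; omega)
    · exact Or.inl ⟨h, h1⟩
    · exact Or.inr (Or.inl ⟨h, h1⟩)
    · exact Or.inr (Or.inr (Or.inl ⟨h, h1⟩))
    · exact Or.inr (Or.inr (Or.inr (Or.inl ⟨h, h1⟩)))
    · exact Or.inr (Or.inr (Or.inr (Or.inr h1)))
  have hl' : (k' = 7 ∧ s < H.length ∧ q' ∈ bad n (H.getD s [])) ∨
      (k' = 11 ∧ s < H.length ∧ q' ∈ bad n (H.getD s [])) ∨ (k' = 8 ∧ s < H.length ∧ q' = 0) ∨
      (k' = 9 ∧ s < H.length ∧ q' = 0) ∨
      (k' = 10 ∧ s < H.length ∧ q' < (good n (H.getD s [])).length - 2) := by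
    rcases hl' with ⟨h, _⟩ | ⟨h | h, _⟩ | ⟨h | h, _⟩ | ⟨h | h, _⟩ | ⟨h | h, h1⟩ | ⟨h | h, h1⟩ | h1
    any_goals (exfalso; omega)
    · exact Or.inl ⟨h, h1⟩
    · exact Or.inr (Or.inl ⟨h, h1⟩)
    · exact Or.inr (Or.inr (Or.inl ⟨h, h1⟩))
    · exact Or.inr (Or.inr (Or.inr (Or.inl ⟨h, h1⟩)))
    · exact Or.inr (Or.inr (Or.inr (Or.inr h1)))
  have hs : s < H.length := by omega
  have ha := (mem_good.1 (C.ha s hs).1).2
  have hb := (mem_good.1 (C.hb s hs).1).2
  have hab : a s ≠ b s := by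
    intro h
    have h1 := (C.ha s hs).2
    have h2 := (C.hb s hs).2
    rw [h, h2] at h1
    exact Bool.noConfusion h1
  have hbad : ∀ i, i ∈ bad n (H.getD s []) → i ∉ H.getD s [] := fun i hi => (mem_bad.1 hi).2
  have hrest : ∀ k, k < (good n (H.getD s [])).length - 2 →
      (rest s).getD k 0 ∈ H.getD s [] ∧ (rest s).getD k 0 ≠ a s ∧ (rest s).getD k 0 ≠ b s := by
    intro k hk
    have h1 := C.sub s hs _ (C.rest_mem hs hk)
    exact ⟨(mem_good.1 h1.1).2, h1.2⟩
  have hrinj : ∀ k k', k < (good n (H.getD s [])).length - 2 →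
      k' < (good n (H.getD s [])).length - 2 → (rest s).getD k 0 = (rest s).getD k' 0 → k = k' := by
    intro k k' hk hk' h
    rw [← C.len s hs] at hk hk'
    rw [List.getD_eq_getElem _ _ hk, List.getD_eq_getElem _ _ hk'] at h
    exact (List.Nodup.getElem_inj_iff (C.nodup s hs)).1 h
  have v7 : ∀ q, vr n a b rest (7, s, q) = q := fun q => by simp [vr]
  have v11 : ∀ q, vr n a b rest (11, s, q) = q := fun q => by simp [vr]
  have v8 : ∀ q, vr n a b rest (8, s, q) = a s := fun q => by simp [vr]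
  have v9 : ∀ q, vr n a b rest (9, s, q) = b s := fun q => by simp [vr]
  have v10 : ∀ q, vr n a b rest (10, s, q) = (rest s).getD q 0 := fun q => by simp [vr]
  have l7 : ∀ q, ¬ isLate ξ (7, s, q) → ξ q = true := by
    intro q h
    by_contra h'
    exact h (Or.inl ⟨rfl, by simpa using h'⟩)
  have l11 : ∀ q, ¬ isLate ξ (11, s, q) → ξ q = false := by
    intro q h
    by_contra h'
    exact h (Or.inr ⟨rfl, by simpa using h'⟩)
  rcases hl with ⟨rfl, _, h⟩ | ⟨rfl, _, h⟩ | ⟨rfl, _, rfl⟩ | ⟨rfl, _, rfl⟩ | ⟨rfl, _, h⟩ <;>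
  rcases hl' with ⟨rfl, _, h'⟩ | ⟨rfl, _, h'⟩ | ⟨rfl, _, rfl⟩ | ⟨rfl, _, rfl⟩ | ⟨rfl, _, h'⟩ <;>
  simp only [v7, v11, v8, v9, v10] at hv
  · exact ⟨rfl, hv⟩
  · exfalso
    have h1 := l7 _ hlate
    have h2 := l11 _ hlate'
    rw [hv, h2] at h1
    exact Bool.noConfusion h1
  · exact absurd (hv ▸ ha) (hbad _ h)
  · exact absurd (hv ▸ hb) (hbad _ h)
  · exact absurd (hv ▸ (hrest _ h').1) (hbad _ h)
  · exfalso
    have h1 := l11 _ hlate
    have h2 := l7 _ hlate'
    rw [hv, h2] at h1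
    exact Bool.noConfusion h1
  · exact ⟨rfl, hv⟩
  · exact absurd (hv ▸ ha) (hbad _ h)
  · exact absurd (hv ▸ hb) (hbad _ h)
  · exact absurd (hv ▸ (hrest _ h').1) (hbad _ h)
  · exact absurd (hv ▸ ha) (hbad _ h')
  · exact absurd (hv ▸ ha) (hbad _ h')
  · exact ⟨rfl, rfl⟩
  · exact absurd hv hab
  · exact absurd hv.symm (hrest _ h').2.1
  · exact absurd (hv ▸ hb) (hbad _ h')
  · exact absurd (hv ▸ hb) (hbad _ h')
  · exact absurd hv.symm hab
  · exact ⟨rfl, rfl⟩
  · exact absurd hv.symm (hrest _ h').2.2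
  · exact absurd (hv ▸ (hrest _ h).1) (hbad _ h')
  · exact absurd (hv ▸ (hrest _ h).1) (hbad _ h')
  · exact absurd hv (hrest _ h).2.1
  · exact absurd hv (hrest _ h).2.2
  · exact ⟨rfl, hrinj _ _ h h' hv⟩

/-- jobs on time of the same length that use the same gap are equal -/
theorem Col.inj (C : Col n H ξ a b rest) {l l' : Lbl} (hl : l ∈ labels n H)
    (hl' : l' ∈ labels n H) (h0 : l.1 ≠ 0) (h0' : l'.1 ≠ 0) (hlate : ¬ isLate ξ l)
    (hlate' : ¬ isLate ξ l') (hp : plen l.1 = plen l'.1)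
    (hf : fr n ξ a b rest l = fr n ξ a b rest l')
    (hb : blk n H.length ξ a b rest l = blk n H.length ξ a b rest l')
    (hv : vr n a b rest l = vr n a b rest l') : l = l' := by
  have hn := C.npos
  have hm := C.mpos
  obtain ⟨k, s, q⟩ := l
  obtain ⟨k', s', q'⟩ := l'
  have hk := kind_le hl
  have hk' := kind_le hl'
  simp only at hk hk' h0 h0' hp
  by_cases h7 : 7 ≤ k
  · have h7' : 7 ≤ k' := by
      by_contra h
      have h1 := plen_lt.2 (by omega : k' < 7)
      have h2 : ¬ plen k < 20 := fun h => by have := plen_lt.1 h; omega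
      omega
    have e1 : blk n H.length ξ a b rest (k, s, q) = s := by
      unfold blk
      rw [if_neg (by simp only; omega), if_neg (by simp only; omega)]
    have e2 : blk n H.length ξ a b rest (k', s', q') = s' := by
      unfold blk
      rw [if_neg (by simp only; omega), if_neg (by simp only; omega)]
    rw [e1, e2] at hb
    subst hb
    obtain ⟨rfl, rfl⟩ := C.injC hl hl' h7 h7' hlate hlate' hv
    rfl
  · have h7' : k' < 7 := by
      have h1 := plen_lt.2 (by omega : k < 7)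
      rw [hp] at h1
      exact plen_lt.1 h1
    rw [mem_labels] at hl hl'
    obtain ⟨F, hF⟩ : ∃ F, F = fr n ξ a b rest (k, s, q) := ⟨_, rfl⟩
    have hF' : F = fr n ξ a b rest (k', s', q') := hF.trans hf
    simp only [blk, vr] at hb hv
    rw [← hF, ← hF'] at hb
    have hk6 : k < 7 := by omega
    interval_cases k <;> interval_cases k' <;> simp [plen] at hp h0 h0' <;>
      norm_num at hb hv hl hl' <;> cases F <;> simp_all <;> omega

theorem tyk_of_fr {l l' : Lbl} (hf : fr n ξ a b rest l = fr n ξ a b rest l')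
    (hv : vr n a b rest l = vr n a b rest l') : tyk l.1 = tyk l'.1 := by
  unfold fr at hf
  rw [hv] at hf
  cases h1 : tyk l.1 <;> cases h2 : tyk l'.1 <;> rw [h1, h2] at hf <;> simp_all

theorem not_isLate_zero {l : Lbl} (h : l.1 = 0) : ¬ isLate ξ l := by
  rintro (⟨h1, _⟩ | ⟨h1, _⟩) <;> omega

theorem isLate_mem {l : Lbl} (hl : l ∈ labels n H) (h : isLate ξ l) :
    l.2.1 < H.length ∧ l.2.2 ∈ bad n (H.getD l.2.1 []) ∧
      l = (if ξ l.2.2 then 11 else 7, l.2.1, l.2.2) := by
  obtain ⟨k, s, q⟩ := l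
  rw [mem_labels] at hl
  rcases h with ⟨h1, h2⟩ | ⟨h1, h2⟩
  · simp only at h1 h2
    subst h1
    simp only [h2]
    norm_num at hl
    exact ⟨hl.1, hl.2, by simp⟩
  · simp only at h1 h2
    subst h1
    simp only [h2]
    norm_num at hl
    exact ⟨hl.1, hl.2, by simp⟩

theorem Col.gap_lt (C : Col n H ξ a b rest) {l : Lbl} (hl : l ∈ labels n H) (h0 : l.1 ≠ 0)
    (hlate : ¬ isLate ξ l) : gapOf n H.length ξ a b rest l < 2 * n * H.length :=
  lt_of_le_of_lt (C.window hl h0 hlate).2 (window_lt C.npos C.mpos hl h0)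

/-- the jobs do not overlap -/
theorem Col.disj (C : Col n H ξ a b rest) {l l' : Lbl} (hl : l ∈ labels n H)
    (hl' : l' ∈ labels n H) (hne : l ≠ l') :
    Tn n H.length ξ a b rest l + plen l.1 ≤ Tn n H.length ξ a b rest l' ∨
      Tn n H.length ξ a b rest l' + plen l'.1 ≤ Tn n H.length ξ a b rest l := by
  have hsep : ∀ l : Lbl, l ∈ labels n H → l.1 = 0 → l.2.1 = 0 ∧ l.2.2 < 2 * n * H.length := by
    rintro ⟨k, s, q⟩ h h0
    rw [mem_labels] at h
    simp only at h0 ⊢
    subst h0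
    norm_num at h
    exact h
  have hlt : ∀ l : Lbl, l ∈ labels n H → isLate ξ l →
      l.2.2 < n ∧ l.2.1 < H.length := by
    intro l hl h
    have := isLate_mem hl h
    exact ⟨(mem_bad.1 this.2.1).1, this.1⟩
  have p0 : plen 0 = 1 := rfl
  by_cases h0 : l.1 = 0 <;> by_cases h0' : l'.1 = 0
  · -- two separators
    have h1 := hsep l hl h0
    have h2 := hsep l' hl' h0'
    have h3 : l.2.2 ≠ l'.2.2 := by
      intro h
      apply hne
      obtain ⟨k, s, q⟩ := l
      obtain ⟨k', s', q'⟩ := l'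
      simp only at h0 h0' h h1 h2
      rw [h0, h0', h, h1.1, h2.1]
    unfold Tn
    rw [if_pos h0, if_pos h0', h0, h0', p0]
    omega
  · have h1 := hsep l hl h0
    by_cases hL' : isLate ξ l'
    · unfold Tn
      rw [if_pos h0, if_neg h0', if_pos hL', h0, p0]
      omega
    · have h2 := C.gap_lt hl' h0' hL'
      have h3 := off_add_le l'.1 h0' (kind_le hl')
      unfold Tn
      rw [if_pos h0, if_neg h0', if_neg hL', h0, p0]
      omega
  · have h1 := hsep l' hl' h0'
    by_cases hL : isLate ξ l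
    · unfold Tn
      rw [if_pos h0', if_neg h0, if_pos hL, h0', p0]
      omega
    · have h2 := C.gap_lt hl h0 hL
      have h3 := off_add_le l.1 h0 (kind_le hl)
      unfold Tn
      rw [if_pos h0', if_neg h0, if_neg hL, h0', p0]
      omega
  · have q1 := plen_le l.1
    have q2 := plen_le l'.1
    by_cases hL : isLate ξ l <;> by_cases hL' : isLate ξ l'
    · -- two late jobs
      have h1 := hlt l hl hL
      have h2 := hlt l' hl' hL'
      have h3 : 2 * n * l.2.1 + l.2.2 ≠ 2 * n * l'.2.1 + l'.2.2 := by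
        intro h
        obtain ⟨h4, h5⟩ := block_unique (by omega) (by omega) h
        apply hne
        rw [(isLate_mem hl hL).2.2, (isLate_mem hl' hL').2.2, h4, h5]
      unfold Tn
      rw [if_neg h0', if_neg h0, if_pos hL, if_pos hL']
      omega
    · have h2 := C.gap_lt hl' h0' hL'
      have h3 := off_add_le l'.1 h0' (kind_le hl')
      unfold Tn
      rw [if_neg h0, if_neg h0', if_neg hL', if_pos hL]
      omega
    · have h2 := C.gap_lt hl h0 hL
      have h3 := off_add_le l.1 h0 (kind_le hl)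
      unfold Tn
      rw [if_neg h0', if_neg h0, if_neg hL, if_pos hL']
      omega
    · have h3 := off_add_le l.1 h0 (kind_le hl)
      have h3' := off_add_le l'.1 h0' (kind_le hl')
      unfold Tn
      rw [if_neg h0', if_neg h0, if_neg hL, if_neg hL']
      by_cases hg : gapOf n H.length ξ a b rest l = gapOf n H.length ξ a b rest l'
      · obtain ⟨h4, h5, h6⟩ := gpp_inj (C.vr_lt hl h0) (C.vr_lt hl' h0') hg
        have h7 := tyk_of_fr h4 h6
        by_cases hp : plen l.1 = plen l'.1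
        · exact absurd (C.inj hl hl' h0 h0' hL hL' hp h4 h5 h6) hne
        · have h8 := off_disj _ _ h0 h0' (kind_le hl) (kind_le hl') h7 hp
          rw [hg]
          omega
      · omega

theorem Col.release (C : Col n H ξ a b rest) {l : Lbl} (hl : l ∈ labels n H) :
    jr n l ≤ Tn n H.length ξ a b rest l := by
  by_cases h0 : l.1 = 0
  · unfold jr Tn
    rw [if_pos h0, if_pos h0]
  · by_cases hL : isLate ξ l
    · have h1 : wL n l ≤ wR n H.length l := by
        obtain ⟨h2, h3, h4⟩ := isLate_mem hl hL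
        rw [h4]
        cases ξ l.2.2 <;> simp [wL, wR]
      have h2 := window_lt C.npos C.mpos hl h0
      unfold jr Tn
      rw [if_neg h0, if_neg h0, if_pos hL]
      omega
    · have h1 := (C.window hl h0 hL).1
      unfold jr Tn
      rw [if_neg h0, if_neg h0, if_neg hL]
      omega

theorem Col.onTime (C : Col n H ξ a b rest) {l : Lbl} (hl : l ∈ labels n H)
    (hL : ¬ isLate ξ l) : Tn n H.length ξ a b rest l + plen l.1 ≤ jd n H.length l := by
  by_cases h0 : l.1 = 0
  · unfold jd Tn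
    rw [if_pos h0, if_pos h0, h0]
    simp [plen]
  · have h1 := (C.window hl h0 hL).2
    have h3 := off_add_le l.1 h0 (kind_le hl)
    unfold jd Tn
    rw [if_neg h0, if_neg h0, if_neg hL]
    omega

theorem Col.late_card (C : Col n H ξ a b rest) :
    ((labels n H).toFinset.filter
      (fun l => jd n H.length l < Tn n H.length ξ a b rest l + plen l.1)).card ≤ kk n H := by
  classical
  have h1 : (labels n H).toFinset.filter
      (fun l => jd n H.length l < Tn n H.length ξ a b rest l + plen l.1) ⊆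
      (Finset.range H.length).biUnion (fun s => (bad n (H.getD s [])).toFinset.image
        (fun i => ((if ξ i then 11 else 7, s, i) : Lbl))) := by
    intro l hl
    rw [Finset.mem_filter, List.mem_toFinset] at hl
    have hL : isLate ξ l := by
      by_contra h
      have := C.onTime hl.1 h
      omega
    obtain ⟨h2, h3, h4⟩ := isLate_mem hl.1 hL
    simp only [Finset.mem_biUnion, Finset.mem_range, Finset.mem_image, List.mem_toFinset]
    exact ⟨l.2.1, h2, l.2.2, h3, h4.symm⟩
  refine (Finset.card_le_card h1).trans (Finset.card_biUnion_le.trans ?_)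
  have h2 : kk n H = ∑ s ∈ Finset.range H.length, (bad n (H.getD s [])).length := by
    unfold kk
    rw [← List.sum_toFinset _ List.nodup_range]
    congr 1
    ext x
    simp
  rw [h2]
  apply Finset.sum_le_sum
  intro s _
  exact Finset.card_image_le.trans (List.toFinset_card_le _)

end Pool.Agent.LateJobs
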