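import Mathlib

/-!
# The scheduling instance of a hypergraph

Gap number `g` is the time interval `[36 g, 36 g + 35)`.  Every job has a label `(k, s, q)`; the
kind `k` is
* `0`: separator after gap `q`;
* `1`, `2`: copy jobs (lengths 6, 16) of the variable `q` between blocks `2 s` and `2 s + 1`;
* `3`, `4`: copy jobs (lengths 9, 19) between blocks `2 s + 1` and `2 s + 2`;
* `5`, `6`: copy jobs (lengths 9, 19) between the first and the last block;
* `7`, `11`: jobs of length 20 fixed in the gaps of the variables that are not in the edge `s`;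
* `8`, `9`: jobs of length 20 that must be in block `2 s`, block `2 s + 1`;
* `10`: jobs of length 20 that may be in both blocks.
-/

namespace Pool.Agent.LateJobs

/-- labels of jobs -/
abbrev Lbl := ℕ × ℕ × ℕ

/-- processing times -/
def plen (k : ℕ) : ℕ :=
  if k = 0 then 1 else if k = 1 then 6 else if k = 2 then 16 else if k = 3 then 9
  else if k = 4 then 19 else if k = 5 then 9 else if k = 6 then 19 else 20

/-- first gap of the window -/
def wL (n : ℕ) (l : Lbl) : ℕ :=
  if l.1 = 0 then l.2.2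
  else if l.1 = 1 then 2 * n * l.2.1 + l.2.2
  else if l.1 = 2 then 2 * n * l.2.1 + l.2.2
  else if l.1 = 3 then 2 * n * l.2.1 + n + l.2.2
  else if l.1 = 4 then 2 * n * l.2.1 + n + l.2.2
  else if l.1 = 5 then l.2.2
  else if l.1 = 6 then l.2.2
  else if l.1 = 7 then 2 * n * l.2.1 + l.2.2
  else if l.1 = 8 then 2 * n * l.2.1
  else if l.1 = 9 then 2 * n * l.2.1 + n
  else if l.1 = 10 then 2 * n * l.2.1
  else 2 * n * l.2.1 + (2 * n - 1 - l.2.2)

/-- last gap of the window -/
def wR (n m : ℕ) (l : Lbl) : ℕ :=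
  if l.1 = 0 then l.2.2
  else if l.1 = 1 then 2 * n * l.2.1 + (2 * n - 1 - l.2.2)
  else if l.1 = 2 then 2 * n * l.2.1 + (2 * n - 1 - l.2.2)
  else if l.1 = 3 then 2 * n * l.2.1 + n + (2 * n - 1 - l.2.2)
  else if l.1 = 4 then 2 * n * l.2.1 + n + (2 * n - 1 - l.2.2)
  else if l.1 = 5 then 2 * n * m - 1 - l.2.2
  else if l.1 = 6 then 2 * n * m - 1 - l.2.2
  else if l.1 = 7 then 2 * n * l.2.1 + l.2.2
  else if l.1 = 8 then 2 * n * l.2.1 + (n - 1)
  else if l.1 = 9 then 2 * n * l.2.1 + (2 * n - 1)
  else if l.1 = 10 then 2 * n * l.2.1 + (2 * n - 1)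
  else 2 * n * l.2.1 + (2 * n - 1 - l.2.2)

/-- release date -/
def jr (n : ℕ) (l : Lbl) : ℕ := if l.1 = 0 then 36 * l.2.2 + 35 else 36 * wL n l

/-- due date -/
def jd (n m : ℕ) (l : Lbl) : ℕ := if l.1 = 0 then 36 * l.2.2 + 36 else 36 * wR n m l + 35

/-- the variables in an edge -/
def good (n : ℕ) (e : List ℕ) : List ℕ := (List.range n).filter (fun i => decide (i ∈ e))

/-- the variables that are not in an edge -/
def bad (n : ℕ) (e : List ℕ) : List ℕ := (List.range n).filter (fun i => !decide (i ∈ e))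

theorem mem_good {n : ℕ} {e : List ℕ} {i : ℕ} : i ∈ good n e ↔ i < n ∧ i ∈ e := by
  simp [good]

theorem mem_bad {n : ℕ} {e : List ℕ} {i : ℕ} : i ∈ bad n e ↔ i < n ∧ i ∉ e := by
  simp [bad]

theorem nodup_good (n : ℕ) (e : List ℕ) : (good n e).Nodup := List.nodup_range.filter _

theorem nodup_bad (n : ℕ) (e : List ℕ) : (bad n e).Nodup := List.nodup_range.filter _

theorem length_good_add (n : ℕ) (e : List ℕ) : (good n e).length + (bad n e).length = n := by
  unfold good bad
  have : ∀ l : List ℕ, (l.filter (fun i => decide (i ∈ e))).length +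
      (l.filter (fun i => !decide (i ∈ e))).length = l.length := by
    intro l
    induction l with
    | nil => rfl
    | cons a l ih =>
      by_cases h : a ∈ e
      · simp only [List.filter_cons, h, decide_true, Bool.not_true, if_true, List.length_cons,
          Bool.false_eq_true, if_false]
        omega
      · simp only [List.filter_cons, h, decide_false, Bool.not_false, if_true, List.length_cons,
          Bool.false_eq_true, if_false]
        omega
  rw [this, List.length_range]

/-- the labels of the jobs of the instance of a hypergraph `H` on `n` vertices -/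
def labels (n : ℕ) (H : List (List ℕ)) : List Lbl :=
  (List.range (2 * n * H.length)).map (fun g => (0, 0, g)) ++
  ((List.range H.length).flatMap (fun s => (List.range n).flatMap (fun q => [(1, s, q), (2, s, q)])) ++
  ((List.range (H.length - 1)).flatMap
      (fun s => (List.range n).flatMap (fun q => [(3, s, q), (4, s, q)])) ++
  ((List.range n).flatMap (fun q => [(5, 0, q), (6, 0, q)]) ++
  ((List.range H.length).flatMap
      (fun s => (bad n (H.getD s [])).flatMap (fun i => [(7, s, i), (11, s, i)])) ++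
  (List.range H.length).flatMap (fun s => (8, s, 0) :: (9, s, 0) ::
      (List.range ((good n (H.getD s [])).length - 2)).map (fun k => (10, s, k)))))))

theorem mem_labels {n : ℕ} {H : List (List ℕ)} {k s q : ℕ} : (k, s, q) ∈ labels n H ↔
    (k = 0 ∧ s = 0 ∧ q < 2 * n * H.length) ∨ ((k = 1 ∨ k = 2) ∧ s < H.length ∧ q < n) ∨
    ((k = 3 ∨ k = 4) ∧ s < H.length - 1 ∧ q < n) ∨ ((k = 5 ∨ k = 6) ∧ s = 0 ∧ q < n) ∨
    ((k = 7 ∨ k = 11) ∧ s < H.length ∧ q ∈ bad n (H.getD s [])) ∨
    ((k = 8 ∨ k = 9) ∧ s < H.length ∧ q = 0) ∨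
    (k = 10 ∧ s < H.length ∧ q < (good n (H.getD s [])).length - 2) := by
  simp only [labels, List.mem_append, List.mem_map, List.mem_range, Prod.mk.injEq,
    List.mem_flatMap, List.mem_cons, List.not_mem_nil, or_false]
  constructor
  · rintro (⟨g, h1, h2, h3, h4⟩ | ⟨s', h1, q', h2, h3 | h3⟩ | ⟨s', h1, q', h2, h3 | h3⟩ |
      ⟨q', h2, h3 | h3⟩ | ⟨s', h1, q', h2, h3 | h3⟩ | ⟨s', h1, h3 | h3 | ⟨q', h2, h3⟩⟩)
    all_goals (obtain ⟨rfl, rfl, rfl⟩ := h3; simp_all)
  · rintro (⟨rfl, rfl, h⟩ | ⟨rfl | rfl, h1, h2⟩ | ⟨rfl | rfl, h1, h2⟩ | ⟨rfl | rfl, rfl, h2⟩ |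
      ⟨rfl | rfl, h1, h2⟩ | ⟨rfl | rfl, h1, rfl⟩ | ⟨rfl, h1, h2⟩)
    · exact Or.inl ⟨q, h, rfl, rfl, rfl⟩
    · exact Or.inr (Or.inl ⟨s, h1, q, h2, Or.inl ⟨rfl, rfl, rfl⟩⟩)
    · exact Or.inr (Or.inl ⟨s, h1, q, h2, Or.inr ⟨rfl, rfl, rfl⟩⟩)
    · exact Or.inr (Or.inr (Or.inl ⟨s, h1, q, h2, Or.inl ⟨rfl, rfl, rfl⟩⟩))
    · exact Or.inr (Or.inr (Or.inl ⟨s, h1, q, h2, Or.inr ⟨rfl, rfl, rfl⟩⟩))
    · exact Or.inr (Or.inr (Or.inr (Or.inl ⟨q, h2, Or.inl ⟨rfl, rfl, rfl⟩⟩)))
    · exact Or.inr (Or.inr (Or.inr (Or.inl ⟨q, h2, Or.inr ⟨rfl, rfl, rfl⟩⟩)))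
    · exact Or.inr (Or.inr (Or.inr (Or.inr (Or.inl ⟨s, h1, q, h2, Or.inl ⟨rfl, rfl, rfl⟩⟩))))
    · exact Or.inr (Or.inr (Or.inr (Or.inr (Or.inl ⟨s, h1, q, h2, Or.inr ⟨rfl, rfl, rfl⟩⟩))))
    · exact Or.inr (Or.inr (Or.inr (Or.inr (Or.inr ⟨s, h1, Or.inl ⟨rfl, rfl, rfl⟩⟩))))
    · exact Or.inr (Or.inr (Or.inr (Or.inr (Or.inr ⟨s, h1, Or.inr (Or.inl ⟨rfl, rfl, rfl⟩)⟩))))
    · exact Or.inr (Or.inr (Or.inr (Or.inr (Or.inr
        ⟨s, h1, Or.inr (Or.inr ⟨q, h2, rfl, rfl, rfl⟩)⟩))))

/-- `flatMap` and `Nodup` -/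
theorem nodup_flatMap' {α β : Type} {l : List α} {f : α → List β} (hl : l.Nodup)
    (h1 : ∀ a ∈ l, (f a).Nodup) (h2 : ∀ a b x, a ≠ b → x ∈ f a → x ∉ f b) :
    (l.flatMap f).Nodup := by
  rw [List.nodup_flatMap]
  refine ⟨h1, ?_⟩
  refine hl.imp ?_
  intro a b hab x hx hx'
  exact h2 a b x hab hx hx'

theorem nodup_labels (n : ℕ) (H : List (List ℕ)) : (labels n H).Nodup := by
  unfold labels
  rw [List.nodup_append', List.nodup_append', List.nodup_append', List.nodup_append',
    List.nodup_append']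
  refine ⟨?_, ⟨?_, ⟨?_, ⟨?_, ⟨?_, ?_, ?_⟩, ?_⟩, ?_⟩, ?_⟩, ?_⟩
  · apply List.nodup_range.map
    intro a b h
    simpa using h
  · apply nodup_flatMap' List.nodup_range
    · intro a _
      apply nodup_flatMap' List.nodup_range
      · intro b _; simp
      · intro b c x hbc hx hx'
        simp only [List.mem_cons, List.not_mem_nil, or_false] at hx hx'
        rcases hx with rfl | rfl <;> simp_all
    · intro a b x hab hx hx'
      simp only [List.mem_flatMap, List.mem_cons, List.not_mem_nil, or_false] at hx hx'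
      obtain ⟨c, _, rfl | rfl⟩ := hx <;> simp_all
  · apply nodup_flatMap' List.nodup_range
    · intro a _
      apply nodup_flatMap' List.nodup_range
      · intro b _; simp
      · intro b c x hbc hx hx'
        simp only [List.mem_cons, List.not_mem_nil, or_false] at hx hx'
        rcases hx with rfl | rfl <;> simp_all
    · intro a b x hab hx hx'
      simp only [List.mem_flatMap, List.mem_cons, List.not_mem_nil, or_false] at hx hx'
      obtain ⟨c, _, rfl | rfl⟩ := hx <;> simp_all
  · apply nodup_flatMap' List.nodup_range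
    · intro b _; simp
    · intro b c x hbc hx hx'
      simp only [List.mem_cons, List.not_mem_nil, or_false] at hx hx'
      rcases hx with rfl | rfl <;> simp_all
  · apply nodup_flatMap' List.nodup_range
    · intro a _
      apply nodup_flatMap' (nodup_bad _ _)
      · intro b _; simp
      · intro b c x hbc hx hx'
        simp only [List.mem_cons, List.not_mem_nil, or_false] at hx hx'
        rcases hx with rfl | rfl <;> simp_all
    · intro a b x hab hx hx'
      simp only [List.mem_flatMap, List.mem_cons, List.not_mem_nil, or_false] at hx hx'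
      obtain ⟨c, _, rfl | rfl⟩ := hx <;> simp_all
  · apply nodup_flatMap' List.nodup_range
    · intro a _
      rw [List.nodup_cons, List.nodup_cons]
      refine ⟨by simp, by simp, ?_⟩
      apply List.nodup_range.map
      intro b c h
      simpa using h
    · intro a b x hab hx hx'
      simp only [List.mem_cons, List.mem_map] at hx hx'
      rcases hx with rfl | rfl | ⟨c, _, rfl⟩ <;> simp_all
  all_goals
    intro x hx hx'
    simp only [List.mem_append, List.mem_map, List.mem_flatMap, List.mem_cons, List.not_mem_nil,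
      or_false] at hx hx'
    grind

/-- sums over all labels of a function of the kind -/
theorem sum_labels (n : ℕ) (H : List (List ℕ)) (ω : ℕ → ℕ) :
    ((labels n H).map (fun l => ω l.1)).sum =
      ω 0 * (2 * n * H.length) + (ω 1 + ω 2) * (n * H.length) +
      (ω 3 + ω 4) * (n * (H.length - 1)) + (ω 5 + ω 6) * n +
      (ω 7 + ω 11) * ((List.range H.length).map (fun s => (bad n (H.getD s [])).length)).sum +
      (ω 8 + ω 9) * H.length +
      ω 10 * ((List.range H.length).map (fun s => (good n (H.getD s [])).length - 2)).sum := by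
  have h0 : ∀ (l : List ℕ) (f : ℕ → Lbl) (c : ℕ), (∀ a ∈ l, ω (f a).1 = c) →
      ((l.map f).map (fun l => ω l.1)).sum = c * l.length := by
    intro l f c h
    induction l with
    | nil => simp
    | cons a l ih =>
      simp only [List.map_cons, List.sum_cons, List.length_cons]
      rw [h a (by simp), ih (fun b hb => h b (by simp [hb]))]
      ring
  have h1 : ∀ (l : List ℕ) (f : ℕ → List Lbl) (c : ℕ → ℕ),
      (∀ a ∈ l, ((f a).map (fun l => ω l.1)).sum = c a) →
      ((l.flatMap f).map (fun l => ω l.1)).sum = (l.map c).sum := by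
    intro l f c h
    induction l with
    | nil => simp
    | cons a l ih =>
      simp only [List.flatMap_cons, List.map_append, List.sum_append, List.map_cons, List.sum_cons]
      rw [h a (by simp), ih (fun b hb => h b (by simp [hb]))]
  have h2 : ∀ (l : List ℕ) (c : ℕ) (g : ℕ → ℕ), (l.map (fun a => c * g a)).sum =
      c * (l.map g).sum := by
    intro l c g
    induction l with
    | nil => simp
    | cons a l ih => simp only [List.map_cons, List.sum_cons, ih]; ring
  have h3 : ∀ (l : List ℕ) (c : ℕ), (l.map (fun _ => c)).sum = c * l.length := by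
    intro l c
    simp [mul_comm]
  unfold labels
  simp only [List.map_append, List.sum_append]
  rw [h0 _ _ (ω 0) (by intro a _; rfl)]
  rw [h1 (List.range H.length) _ (fun _ => (ω 1 + ω 2) * n) (by
    intro a _
    rw [h1 _ _ (fun _ => ω 1 + ω 2) (by intro b _; simp), h3, List.length_range])]
  rw [h1 (List.range (H.length - 1)) _ (fun _ => (ω 3 + ω 4) * n) (by
    intro a _
    rw [h1 _ _ (fun _ => ω 3 + ω 4) (by intro b _; simp), h3, List.length_range])]
  rw [h1 (List.range n) _ (fun _ => (ω 5 + ω 6)) (by intro a _; simp)]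
  rw [h1 (List.range H.length) _ (fun s => (ω 7 + ω 11) * (bad n (H.getD s [])).length) (by
    intro a _
    rw [h1 _ _ (fun _ => ω 7 + ω 11) (by intro b _; simp), h3])]
  rw [h1 (List.range H.length) _ (fun s => (ω 8 + ω 9) +
      ω 10 * ((good n (H.getD s [])).length - 2)) (by
    intro a _
    simp only [List.map_cons, List.sum_cons]
    rw [h0 _ _ (ω 10) (by intro a _; rfl), List.length_range]
    ring)]
  have h4 : ((List.range H.length).map (fun s => (ω 8 + ω 9) +
      ω 10 * ((good n (H.getD s [])).length - 2))).sum = (ω 8 + ω 9) * H.length +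
      ω 10 * ((List.range H.length).map (fun s => (good n (H.getD s [])).length - 2)).sum := by
    rw [← h2, List.sum_map_add, h3, List.length_range]
  rw [h4, h2 _ (ω 7 + ω 11) (fun s => (bad n (H.getD s [])).length), h3, h3, h3]
  simp only [List.length_range]
  ring

end Pool.Agent.LateJobs
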