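import Pool.Agent.Lib.MP_1ce42f_lc.Equiv
import Pool.Agent.Lib.MP_17a834_lc.Msr.Final

/-!
# The reduction is computable in polynomial time; NP-hardness
-/

open N68a2faeb N793a5b8e N487b59b3

namespace Pool.Agent.LateJobs

open Pool.Agent.MSR Pool.Agent.MSR.En

variable {α β : Type} [En α] [En β]

theorem PT.iteEq {f g : α → ℕ} {h k : α → β} (hf : PT f) (hg : PT g) (hh : PT h) (hk : PT k) :
    PT (fun a => if f a = g a then h a else k a) :=
  (PT.cond (PT.eq hf hg) hh hk).of_eq (fun a => by by_cases h : f a = g a <;> simp [h])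

theorem PT.plen {k : α → ℕ} (hk : PT k) : PT (fun a => plen (k a)) := by
  unfold LateJobs.plen
  repeat' first
    | exact PT.const _
    | exact hk
    | apply PT.iteEq

theorem PT.wL {n : α → ℕ} {l : α → Lbl} (hn : PT n) (hl : PT l) :
    PT (fun a => wL (n a) (l a)) := by
  have h1 : PT (fun a => (l a).1) := PT.fst hl
  have h2 : PT (fun a => (l a).2.1) := PT.fst (PT.snd hl)
  have h3 : PT (fun a => (l a).2.2) := PT.snd (PT.snd hl)
  unfold LateJobs.wL
  repeat' first
    | exact PT.const _
    | exact h1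
    | exact h2
    | exact h3
    | exact hn
    | apply PT.iteEq
    | apply PT.add
    | apply PT.mul
    | apply PT.sub

theorem PT.wR {n m : α → ℕ} {l : α → Lbl} (hn : PT n) (hm : PT m) (hl : PT l) :
    PT (fun a => wR (n a) (m a) (l a)) := by
  have h1 : PT (fun a => (l a).1) := PT.fst hl
  have h2 : PT (fun a => (l a).2.1) := PT.fst (PT.snd hl)
  have h3 : PT (fun a => (l a).2.2) := PT.snd (PT.snd hl)
  unfold LateJobs.wR
  repeat' first
    | exact PT.const _
    | exact h1
    | exact h2
    | exact h3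
    | exact hn
    | exact hm
    | apply PT.iteEq
    | apply PT.add
    | apply PT.mul
    | apply PT.sub

theorem PT.jr {n : α → ℕ} {l : α → Lbl} (hn : PT n) (hl : PT l) :
    PT (fun a => jr (n a) (l a)) := by
  have h1 : PT (fun a => (l a).1) := PT.fst hl
  have h3 : PT (fun a => (l a).2.2) := PT.snd (PT.snd hl)
  unfold LateJobs.jr
  exact PT.iteEq h1 (PT.const 0) (PT.add (PT.mul (PT.const 36) h3) (PT.const 35))
    (PT.mul (PT.const 36) (PT.wL hn hl))

theorem PT.jd {n m : α → ℕ} {l : α → Lbl} (hn : PT n) (hm : PT m) (hl : PT l) :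
    PT (fun a => jd (n a) (m a) (l a)) := by
  have h1 : PT (fun a => (l a).1) := PT.fst hl
  have h3 : PT (fun a => (l a).2.2) := PT.snd (PT.snd hl)
  unfold LateJobs.jd
  exact PT.iteEq h1 (PT.const 0) (PT.add (PT.mul (PT.const 36) h3) (PT.const 36))
    (PT.add (PT.mul (PT.const 36) (PT.wR hn hm hl)) (PT.const 35))

theorem PT.good {n : α → ℕ} {e : α → List ℕ} (hn : PT n) (he : PT e) :
    PT (fun a => good (n a) (e a)) := by
  unfold LateJobs.good
  apply PT.filter (PT.range hn)
  exact PT.mem (PT.snd PT.id') (he.comp (PT.fst PT.id'))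

theorem PT.bad {n : α → ℕ} {e : α → List ℕ} (hn : PT n) (he : PT e) :
    PT (fun a => bad (n a) (e a)) := by
  unfold LateJobs.bad
  apply PT.filter (PT.range hn)
  exact PT.not (PT.mem (PT.snd PT.id') (he.comp (PT.fst PT.id')))

theorem PT.two {l : α → List β} {k k' : ℕ} {s q : α × β → ℕ} (hl : PT l) (hs : PT s) (hq : PT q) :
    PT (fun a => (l a).flatMap (fun b => ([(k, s (a, b), q (a, b)), (k', s (a, b), q (a, b))] : List Lbl))) := by
  apply PT.flatMap hl
  apply PT.cons (PT.pair (PT.const _) (PT.pair hs hq))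
  exact PT.cons (PT.pair (PT.const _) (PT.pair hs hq)) (PT.const [])

theorem PT.labels {n : α → ℕ} {H : α → List (List ℕ)} (hn : PT n) (hH : PT H) :
    PT (fun a => labels (n a) (H a)) := by
  have hm : PT (fun a => (H a).length) := PT.length hH
  have hn1 : PT (fun p : α × ℕ => n p.1) := hn.comp (PT.fst PT.id')
  have he : PT (fun p : α × ℕ => (H p.1).getD p.2 []) :=
    PT.getD (PT.snd PT.id') (hH.comp (PT.fst PT.id')) (PT.const [])
  have hs : PT (fun p : α × ℕ => p.2) := PT.snd PT.id'
  unfold LateJobs.labels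
  apply PT.append
  · apply PT.map (PT.range (PT.mul (PT.mul (PT.const 2) hn) hm))
    exact PT.pair (PT.const 0) (PT.pair (PT.const 0) (PT.snd PT.id'))
  apply PT.append
  · apply PT.flatMap (PT.range hm)
    exact PT.two (s := fun p => p.1.2) (q := fun p => p.2) (PT.range hn1)
      (PT.snd (PT.fst PT.id')) (PT.snd PT.id')
  apply PT.append
  · apply PT.flatMap (PT.range (PT.sub hm (PT.const 1)))
    exact PT.two (s := fun p => p.1.2) (q := fun p => p.2) (PT.range hn1)
      (PT.snd (PT.fst PT.id')) (PT.snd PT.id')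
  apply PT.append
  · exact PT.two (s := fun _ => 0) (q := fun p => p.2) (PT.range hn) (PT.const 0) (PT.snd PT.id')
  apply PT.append
  · apply PT.flatMap (PT.range hm)
    exact PT.two (s := fun p => p.1.2) (q := fun p => p.2) (PT.bad hn1 he)
      (PT.snd (PT.fst PT.id')) (PT.snd PT.id')
  · apply PT.flatMap (PT.range hm)
    apply PT.cons (PT.pair (PT.const 8) (PT.pair hs (PT.const 0)))
    apply PT.cons (PT.pair (PT.const 9) (PT.pair hs (PT.const 0)))
    apply PT.map (PT.range (PT.sub (PT.length (PT.good hn1 he)) (PT.const 2)))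
    exact PT.pair (PT.const 10) (PT.pair (PT.snd (PT.fst PT.id')) (PT.snd PT.id'))

end Pool.Agent.LateJobs
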