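import Pool.Agent.Lib.MP_1ce42f_lc.Instance
import Pool.Agent.Lib.MP_1ce42f_lc.Combi

/-!
# A schedule with few late jobs fills every gap exactly
-/

namespace Pool.Agent.LateJobs

/-- number of pairs (edge, variable not in the edge) -/
def kk (n : ℕ) (H : List (List ℕ)) : ℕ :=
  ((List.range H.length).map (fun s => (bad n (H.getD s [])).length)).sum

theorem sum_good_bad (n : ℕ) (H : List (List ℕ)) (m : ℕ)
    (h2 : ∀ s < m, 2 ≤ (good n (H.getD s [])).length) :
    ((List.range m).map (fun s => (good n (H.getD s [])).length - 2)).sum + 2 * m +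
      ((List.range m).map (fun s => (bad n (H.getD s [])).length)).sum = n * m := by
  induction m with
  | zero => simp
  | succ m ih =>
    have h3 := ih (fun s hs => h2 s (by omega))
    have h4 := h2 m (by omega)
    have h5 := length_good_add n (H.getD m [])
    simp only [List.range_succ, List.map_append, List.map_cons, List.map_nil, List.sum_append,
      List.sum_cons, List.sum_nil] at *
    have h6 : n * (m + 1) = n * m + n := by ring
    omega

theorem length_labels (n : ℕ) (H : List (List ℕ)) (hm : 0 < H.length)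
    (h2 : ∀ s < H.length, 2 ≤ (good n (H.getD s [])).length) :
    (labels n H).length = 7 * (n * H.length) + kk n H := by
  have h := sum_labels n H (fun _ => 1)
  have h3 := sum_good_bad n H H.length h2
  have h4 : ((labels n H).map (fun _ => 1)).sum = (labels n H).length := by simp
  rw [h4] at h
  rw [h]
  unfold kk
  obtain ⟨m, hm'⟩ : ∃ m, H.length = m + 1 := ⟨H.length - 1, by omega⟩
  rw [hm'] at h3 ⊢
  simp only [Nat.add_sub_cancel]
  have e1 : n * (m + 1) = n * m + n := by ring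
  have e2 : 2 * n * (m + 1) = 2 * (n * m) + 2 * n := by ring
  rw [e1] at h3
  rw [e1, e2]
  omega

theorem sum_slack (n : ℕ) (H : List (List ℕ)) (hm : 0 < H.length) :
    ((labels n H).map (fun l => 20 - plen l.1)).sum = 68 * (n * H.length) := by
  have h := sum_labels n H (fun k => 20 - plen k)
  rw [h]
  simp only [plen]
  norm_num
  obtain ⟨m, hm'⟩ : ∃ m, H.length = m + 1 := ⟨H.length - 1, by omega⟩
  rw [hm']
  simp only [Nat.add_sub_cancel]
  ring

theorem plen_pos (k : ℕ) : 1 ≤ plen k := by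
  unfold plen; split_ifs <;> omega

theorem plen_le (k : ℕ) : plen k ≤ 20 := by
  unfold plen; split_ifs <;> omega

theorem plen_cases {k : ℕ} (hk : k ≠ 0) :
    plen k = 6 ∨ plen k = 9 ∨ plen k = 16 ∨ plen k = 19 ∨ plen k = 20 := by
  unfold plen; split_ifs <;> simp_all

theorem plen_lt {k : ℕ} : plen k < 20 ↔ k < 7 := by
  unfold plen
  split_ifs <;> omega

/-- the only ways to write 35 -/
theorem dioph (a b c d e : ℕ) (h : 6 * a + 9 * b + 16 * c + 19 * d + 20 * e = 35) :
    (a = 1 ∧ b = 1 ∧ c = 0 ∧ d = 0 ∧ e = 1) ∨ (a = 0 ∧ b = 0 ∧ c = 1 ∧ d = 1 ∧ e = 0) := by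
  have he : e ≤ 1 := by omega
  have hd : d ≤ 1 := by omega
  have hc : c ≤ 2 := by omega
  have hb : b ≤ 3 := by omega
  interval_cases e <;> interval_cases d <;> interval_cases c <;> interval_cases b <;> omega

/-- windows are inside the time table -/
theorem window_lt {n : ℕ} (hn : 0 < n) {H : List (List ℕ)} (hm : 0 < H.length) {l : Lbl}
    (hl : l ∈ labels n H) (h0 : l.1 ≠ 0) : wR n H.length l < 2 * n * H.length := by
  obtain ⟨k, s, q⟩ := l
  rw [mem_labels] at hl
  have key : ∀ s, s < H.length → 2 * n * s + 2 * n ≤ 2 * n * H.length := by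
    intro s hs
    calc 2 * n * s + 2 * n = 2 * n * (s + 1) := by ring
      _ ≤ 2 * n * H.length := Nat.mul_le_mul_left _ hs
  rcases hl with ⟨rfl, rfl, h⟩ | ⟨rfl | rfl, h1, h2⟩ | ⟨rfl | rfl, h1, h2⟩ | ⟨rfl | rfl, rfl, h2⟩ |
      ⟨rfl | rfl, h1, h2⟩ | ⟨rfl | rfl, h1, rfl⟩ | ⟨rfl, h1, h2⟩
  · exact absurd rfl h0
  · have := key s h1; simp only [wR]; norm_num; omega
  · have := key s h1; simp only [wR]; norm_num; omega
  · have := key (s + 1) (by omega)
    have e : 2 * n * (s + 1) = 2 * n * s + 2 * n := by ring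
    simp only [wR]; norm_num; omega
  · have := key (s + 1) (by omega)
    have e : 2 * n * (s + 1) = 2 * n * s + 2 * n := by ring
    simp only [wR]; norm_num; omega
  · have := key 0 hm; simp only [wR]; norm_num; omega
  · have := key 0 hm; simp only [wR]; norm_num; omega
  · rw [mem_bad] at h2
    have := key s h1; simp only [wR]; norm_num; omega
  · rw [mem_bad] at h2
    have := key s h1; simp only [wR]; norm_num; omega
  · have := key s h1; simp only [wR]; norm_num; omega
  · have := key s h1; simp only [wR]; norm_num; omega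
  · have := key s h1; simp only [wR]; norm_num; omega

/-- the combinatorial structure extracted from a schedule: a set `X` of jobs on time, the gap of
every job, and the type of every gap -/
structure Fills (n : ℕ) (H : List (List ℕ)) (X : Lbl → Prop) (gp : Lbl → ℕ) (A : ℕ → Prop) :
    Prop where
  sub : ∀ l, X l → l ∈ labels n H
  all : ∀ l ∈ labels n H, l.1 < 7 → X l
  win : ∀ l, X l → l.1 ≠ 0 → wL n l ≤ gp l ∧ gp l ≤ wR n H.length l
  typA : ∀ l, X l → l.1 ≠ 0 → (plen l.1 = 6 ∨ plen l.1 = 9 ∨ plen l.1 = 20) → A (gp l)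
  typB : ∀ l, X l → l.1 ≠ 0 → (plen l.1 = 16 ∨ plen l.1 = 19) → ¬ A (gp l)
  uniq : ∀ l l', X l → X l' → l.1 ≠ 0 → l'.1 ≠ 0 → plen l.1 = plen l'.1 → gp l = gp l' → l = l'
  full : ∀ g < 2 * n * H.length, A g → ∃ l, X l ∧ l.1 ≠ 0 ∧ plen l.1 = 20 ∧ gp l = g

theorem exists_fills (n : ℕ) (hn : 0 < n) (H : List (List ℕ)) (hm : 0 < H.length)
    (h2 : ∀ s < H.length, 2 ≤ (good n (H.getD s [])).length) (T : Lbl → ℝ)
    (hr : ∀ l ∈ labels n H, (jr n l : ℝ) ≤ T l)
    (hd : ∀ l ∈ labels n H, ∀ l' ∈ labels n H, l ≠ l' →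
      Disjoint (Set.Ico (T l) (T l + plen l.1)) (Set.Ico (T l') (T l' + plen l'.1)))
    (hk : ((labels n H).toFinset.filter
      (fun l => (jd n H.length l : ℝ) < T l + plen l.1)).card ≤ kk n H) :
    ∃ X gp A, Fills n H X gp A := by
  classical
  set L := (labels n H).toFinset with hL
  set N := 2 * n * H.length with hN
  have hNe : N = 2 * (n * H.length) := by rw [hN]; ring
  have memL : ∀ l, l ∈ L ↔ l ∈ labels n H := fun l => by rw [hL, List.mem_toFinset]
  set X := L.filter (fun l => T l + plen l.1 ≤ (jd n H.length l : ℝ)) with hX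
  have memX : ∀ l, l ∈ X ↔ l ∈ labels n H ∧ T l + plen l.1 ≤ (jd n H.length l : ℝ) := by
    intro l; rw [hX, Finset.mem_filter, memL]
  -- number of jobs on time
  have hcard : 7 * (n * H.length) ≤ X.card := by
    have h3 := Finset.card_filter_add_card_filter_not (s := L)
      (fun l => (jd n H.length l : ℝ) < T l + plen l.1)
    have h4 : L.filter (fun l => ¬ (jd n H.length l : ℝ) < T l + plen l.1) = X := by
      rw [hX]; congr 1; funext l; simp only [not_lt]
    rw [h4] at h3
    have h5 : L.card = 7 * (n * H.length) + kk n H := by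
      rw [hL, List.toFinset_card_of_nodup (nodup_labels n H), length_labels n H hm h2]
    omega
  have hTpos : ∀ l ∈ labels n H, 0 ≤ T l := fun l hl => (Nat.cast_nonneg _).trans (hr l hl)
  -- due dates
  have hjd : ∀ l ∈ labels n H, jd n H.length l ≤ 36 * N := by
    intro l hl
    unfold jd
    split_ifs with h0
    · obtain ⟨k, s, q⟩ := l
      rw [mem_labels] at hl
      simp only at h0 ⊢
      subst h0
      rcases hl with ⟨_, _, h⟩ | ⟨h | h, _⟩ | ⟨h | h, _⟩ | ⟨h | h, _⟩ | ⟨h | h, _⟩ | ⟨h | h, _⟩ |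
        ⟨h, _⟩
      · omega
      all_goals omega
    · have := window_lt hn hm hl h0
      omega
  -- total length
  have hlen : ∑ l ∈ X, plen l.1 ≤ 36 * N := by
    have h3 := pack X T (fun l => (plen l.1 : ℝ)) (fun l _ => Nat.cast_nonneg _) 0 (36 * N : ℕ)
      (Nat.cast_nonneg _) (fun l hl => hTpos l ((memX l).1 hl).1)
      (fun l hl => ((memX l).1 hl).2.trans (Nat.cast_le.2 (hjd l ((memX l).1 hl).1)))
      (fun l hl l' hl' hne => hd l ((memX l).1 hl).1 l' ((memX l').1 hl').1 hne)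
    rw [← Nat.cast_sum, sub_zero] at h3
    exact_mod_cast h3
  -- all short jobs are on time
  have hsl : ∑ l ∈ L, (20 - plen l.1) = 68 * (n * H.length) := by
    rw [← sum_slack n H hm, hL, List.sum_toFinset _ (nodup_labels n H)]
  have hXL : X ⊆ L := Finset.filter_subset _ _
  have hslX : ∑ l ∈ X, (20 - plen l.1) + ∑ l ∈ L \ X, (20 - plen l.1) = 68 * (n * H.length) := by
    rw [← hsl, ← Finset.sum_sdiff hXL, add_comm]
  have h20 : ∑ l ∈ X, (20 - plen l.1) + ∑ l ∈ X, plen l.1 = 20 * X.card := by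
    rw [← Finset.sum_add_distrib, Finset.card_eq_sum_ones, Finset.mul_sum]
    apply Finset.sum_congr rfl
    intro l _
    have := plen_le l.1
    omega
  have hz : ∑ l ∈ L \ X, (20 - plen l.1) = 0 := by omega
  have hlen2 : ∑ l ∈ X, plen l.1 = 36 * N := by omega
  have hall : ∀ l ∈ labels n H, l.1 < 7 → l ∈ X := by
    intro l hl h7
    by_contra hx
    have h3 := (Finset.sum_eq_zero_iff.1 hz) l (Finset.mem_sdiff.2 ⟨(memL l).2 hl, hx⟩)
    have := plen_lt.2 h7
    omega
  -- separators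
  have hsep : ∀ g < N, T (0, 0, g) = 36 * g + 35 := by
    intro g hg
    have hl : ((0, 0, g) : Lbl) ∈ labels n H := mem_labels.2 (Or.inl ⟨rfl, rfl, hg⟩)
    have h3 := hr _ hl
    have h4 := ((memX _).1 (hall _ hl (by norm_num))).2
    simp only [jr, jd, plen, if_true] at h3 h4
    push_cast at h3 h4
    linarith
  have hsepmem : ∀ g < N, ((0, 0, g) : Lbl) ∈ labels n H :=
    fun g hg => mem_labels.2 (Or.inl ⟨rfl, rfl, hg⟩)
  -- the gap of a job
  set gp : Lbl → ℕ := fun l => ⌊T l / 36⌋₊ with hgp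
  have hgap : ∀ l ∈ X, l.1 ≠ 0 → (36 * (gp l : ℝ) ≤ T l ∧ T l + plen l.1 ≤ 36 * (gp l : ℝ) + 35) ∧
      wL n l ≤ gp l ∧ gp l ≤ wR n H.length l ∧ gp l < N := by
    intro l hl h0
    obtain ⟨hl1, hl2⟩ := (memX l).1 hl
    have hT := hTpos l hl1
    have h3 : (gp l : ℝ) ≤ T l / 36 := Nat.floor_le (by positivity)
    have h4 : T l / 36 < gp l + 1 := Nat.lt_floor_add_one _
    have h5 : 36 * (gp l : ℝ) ≤ T l := by linarith
    have h6 : T l < 36 * (gp l : ℝ) + 36 := by linarith
    have h7 := hr l hl1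
    simp only [jr, jd, if_neg h0] at h7 hl2
    push_cast at h7 hl2
    have hp : (1 : ℝ) ≤ plen l.1 := by exact_mod_cast plen_pos l.1
    have h8 : wL n l ≤ gp l := by
      have : (wL n l : ℝ) < gp l + 1 := by linarith
      exact Nat.lt_succ_iff.1 (by exact_mod_cast this)
    have h9 : gp l ≤ wR n H.length l := by
      have : (gp l : ℝ) < wR n H.length l + 1 := by linarith
      exact Nat.lt_succ_iff.1 (by exact_mod_cast this)
    have h10 : gp l < N := lt_of_le_of_lt h9 (window_lt hn hm hl1 h0)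
    refine ⟨⟨h5, ?_⟩, h8, h9, h10⟩
    by_contra hcon
    rw [not_le] at hcon
    have hne : l ≠ (0, 0, gp l) := by
      intro h
      exact h0 (by rw [h])
    have h11 := hd l hl1 (0, 0, gp l) (hsepmem _ h10) hne
    rw [hsep _ h10] at h11
    have h12 : max (T l) (36 * (gp l : ℝ) + 35) ∈ Set.Ico (T l) (T l + plen l.1) := by
      refine ⟨le_max_left _ _, max_lt (by linarith) hcon⟩
    have h13 : max (T l) (36 * (gp l : ℝ) + 35) ∈
        Set.Ico (36 * (gp l : ℝ) + 35) (36 * (gp l : ℝ) + 35 + (plen 0 : ℕ)) := by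
      refine ⟨le_max_right _ _, max_lt ?_ ?_⟩
      · simp only [plen, if_true]; push_cast; linarith
      · simp only [plen, if_true]; push_cast; linarith
    exact Set.disjoint_left.1 h11 h12 h13
  -- the jobs in a gap
  set Xg : ℕ → Finset Lbl := fun g => X.filter (fun l => l.1 ≠ 0 ∧ gp l = g) with hXg
  have memXg : ∀ g l, l ∈ Xg g ↔ l ∈ X ∧ l.1 ≠ 0 ∧ gp l = g := by
    intro g l; rw [hXg]; simp only [Finset.mem_filter]
  have hle : ∀ g ∈ Finset.range N, ∑ l ∈ Xg g, plen l.1 ≤ 35 := by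
    intro g _
    have h3 := pack (Xg g) T (fun l => (plen l.1 : ℝ)) (fun l _ => Nat.cast_nonneg _)
      (36 * g : ℝ) (36 * g + 35 : ℝ) (by linarith)
      (fun l hl => by
        obtain ⟨h4, h5, h6⟩ := (memXg g l).1 hl
        have := (hgap l h4 h5).1.1
        rw [h6] at this; exact this)
      (fun l hl => by
        obtain ⟨h4, h5, h6⟩ := (memXg g l).1 hl
        have := (hgap l h4 h5).1.2
        rw [h6] at this; exact this)
      (fun l hl l' hl' hne => hd l ((memX l).1 ((memXg g l).1 hl).1).1 l'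
        ((memX l').1 ((memXg g l').1 hl').1).1 hne)
    rw [← Nat.cast_sum] at h3
    have h4 : ((∑ l ∈ Xg g, plen l.1 : ℕ) : ℝ) ≤ (35 : ℕ) := by push_cast; push_cast at h3; linarith
    exact_mod_cast h4
  have hsum : ∑ g ∈ Finset.range N, ∑ l ∈ Xg g, plen l.1 = 35 * N := by
    have h3 : ∑ l ∈ X.filter (fun l => l.1 ≠ 0), plen l.1 =
        ∑ g ∈ Finset.range N, ∑ l ∈ Xg g, plen l.1 := by
      rw [← Finset.sum_fiberwise_of_maps_to (s := X.filter (fun l => l.1 ≠ 0))
        (t := Finset.range N) (g := gp)]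
      · apply Finset.sum_congr rfl
        intro g _
        apply Finset.sum_congr _ (fun _ _ => rfl)
        ext l
        simp only [memXg, Finset.mem_filter]
        tauto
      · intro l hl
        rw [Finset.mem_filter] at hl
        exact Finset.mem_range.2 (hgap l hl.1 hl.2).2.2.2
    have h4 : ∑ l ∈ X.filter (fun l => ¬ l.1 ≠ 0), plen l.1 = N := by
      have h5 : X.filter (fun l => ¬ l.1 ≠ 0) =
          (Finset.range N).image (fun g => ((0, 0, g) : Lbl)) := by
        ext l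
        simp only [Finset.mem_filter, Finset.mem_image, Finset.mem_range, not_not]
        constructor
        · rintro ⟨h6, h7⟩
          obtain ⟨k, s, q⟩ := l
          simp only at h7
          subst h7
          have h8 := ((memX _).1 h6).1
          rw [mem_labels] at h8
          rcases h8 with ⟨_, rfl, h⟩ | ⟨h | h, _⟩ | ⟨h | h, _⟩ | ⟨h | h, _⟩ | ⟨h | h, _⟩ |
            ⟨h | h, _⟩ | ⟨h, _⟩
          · exact ⟨q, h, rfl⟩
          all_goals omega
        · rintro ⟨g, hg, rfl⟩
          exact ⟨hall _ (hsepmem g hg) (by norm_num), rfl⟩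
      rw [h5, Finset.sum_image (by intro a _ b _ h; simpa using h)]
      simp [plen]
    have h5 := Finset.sum_filter_add_sum_filter_not X (fun l => l.1 ≠ 0) (fun l => plen l.1)
    rw [h3, h4, hlen2] at h5
    omega
  have heq : ∀ g ∈ Finset.range N, ∑ l ∈ Xg g, plen l.1 = 35 := by
    have h3 : ∑ g ∈ Finset.range N, ∑ l ∈ Xg g, plen l.1 = ∑ g ∈ Finset.range N, 35 := by
      rw [hsum]; simp [mul_comm]
    exact (Finset.sum_eq_sum_iff_of_le hle).1 h3
  -- counts
  set cnt : ℕ → ℕ → ℕ := fun c g => ((Xg g).filter (fun l => plen l.1 = c)).card with hcnt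
  have hcs : ∀ g < N, 6 * cnt 6 g + 9 * cnt 9 g + 16 * cnt 16 g + 19 * cnt 19 g +
      20 * cnt 20 g = 35 := by
    intro g hg
    rw [← heq g (Finset.mem_range.2 hg)]
    simp only [hcnt, Finset.card_filter, Finset.mul_sum, ← Finset.sum_add_distrib]
    apply Finset.sum_congr rfl
    intro l hl
    rcases plen_cases ((memXg g l).1 hl).2.1 with h | h | h | h | h <;> simp [h]
  have hone : ∀ g < N, (cnt 6 g = 1 ∧ cnt 9 g = 1 ∧ cnt 16 g = 0 ∧ cnt 19 g = 0 ∧ cnt 20 g = 1) ∨
      (cnt 6 g = 0 ∧ cnt 9 g = 0 ∧ cnt 16 g = 1 ∧ cnt 19 g = 1 ∧ cnt 20 g = 0) := by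
    intro g hg
    exact dioph _ _ _ _ _ (hcs g hg)
  have hpos : ∀ l ∈ X, l.1 ≠ 0 → 1 ≤ cnt (plen l.1) (gp l) := by
    intro l hl h0
    apply Finset.card_pos.2
    exact ⟨l, Finset.mem_filter.2 ⟨(memXg _ _).2 ⟨hl, h0, rfl⟩, rfl⟩⟩
  refine ⟨fun l => l ∈ X, gp, fun g => cnt 6 g = 1, ⟨fun l hl => ((memX l).1 hl).1, hall,
    fun l hl h0 => ⟨(hgap l hl h0).2.1, (hgap l hl h0).2.2.1⟩, ?_, ?_, ?_, ?_⟩⟩
  · intro l hl h0 h
    have h3 := hpos l hl h0
    have h4 := hone (gp l) (hgap l hl h0).2.2.2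
    rcases h with h | h | h <;> rw [h] at h3 <;> omega
  · intro l hl h0 h
    have h3 := hpos l hl h0
    have h4 := hone (gp l) (hgap l hl h0).2.2.2
    rcases h with h | h <;> rw [h] at h3 <;> omega
  · intro l l' hl hl' h0 h0' hp hg
    have h4 := hone (gp l) (hgap l hl h0).2.2.2
    have h5 : cnt (plen l.1) (gp l) ≤ 1 := by
      rcases plen_cases h0 with h | h | h | h | h <;> rw [h] <;> omega
    have h6 : l ∈ (Xg (gp l)).filter (fun l' => plen l'.1 = plen l.1) :=
      Finset.mem_filter.2 ⟨(memXg _ _).2 ⟨hl, h0, rfl⟩, rfl⟩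
    have h7 : l' ∈ (Xg (gp l)).filter (fun l' => plen l'.1 = plen l.1) :=
      Finset.mem_filter.2 ⟨(memXg _ _).2 ⟨hl', h0', hg.symm⟩, hp.symm⟩
    exact Finset.card_le_one.1 h5 l h6 l' h7
  · intro g hg hA
    have h4 := hone g hg
    have h5 : 0 < cnt 20 g := by omega
    obtain ⟨l, hl⟩ := Finset.card_pos.1 h5
    rw [Finset.mem_filter, memXg] at hl
    exact ⟨l, hl.1.1, hl.1.2.1, hl.2, hl.1.2.2⟩

end Pool.Agent.LateJobs
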